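import Pool.Agent.Helper28.HA.Defs

/-!
MP_143e28_ag, project HA: Moebius permutations.

`mact_some`, `mact_infty`: unfold `mact` (`MulAction.toPermHom_apply`, `OnePoint.smul_some_eq_ite`,
`OnePoint.smul_infty_eq_ite`).  `three_fix`: conjugate by `mob_trans` so that one fixed point is `∞`, then `mob_affine`:
`a z + b = z` has at most one solution unless `a = 1`, `b = 0`.  `exists_fix`: a root of `c X ^ 2 + (d - a) X - b`
(if `c = 0`, `∞` is fixed).
-/

set_option autoImplicit false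

namespace Pool.Agent.Helper28.HA

open Polynomial OnePoint

variable {k : Type*} [Field k]

open Classical in
private theorem B1_apply (M : GL (Fin 2) k) (P : OnePoint k) : mact M P = M • P := rfl

theorem mact_some (M : GL (Fin 2) k) (z : k) (h : M 1 0 * z + M 1 1 ≠ 0) :
    mact M (z : OnePoint k) = ((M 0 0 * z + M 0 1) / (M 1 0 * z + M 1 1) : k) := by
  classical
  rw [B1_apply, OnePoint.smul_some_eq_ite, if_neg h]

theorem mact_some_zero (M : GL (Fin 2) k) (z : k) (h : M 1 0 * z + M 1 1 = 0) :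
    mact M (z : OnePoint k) = ∞ := by
  classical
  rw [B1_apply, OnePoint.smul_some_eq_ite, if_pos h]

theorem mact_infty (M : GL (Fin 2) k) (h : M 1 0 ≠ 0) :
    mact M (∞ : OnePoint k) = (M 0 0 / M 1 0 : k) := by
  classical
  rw [B1_apply, OnePoint.smul_infty_eq_ite, if_neg h]

theorem mact_infty_zero (M : GL (Fin 2) k) (h : M 1 0 = 0) : mact M (∞ : OnePoint k) = ∞ := by
  classical
  rw [B1_apply, OnePoint.smul_infty_eq_ite, if_pos h]

theorem IsMob.mul {s t : Equiv.Perm (OnePoint k)} (hs : IsMob s) (ht : IsMob t) : IsMob (s * t) := by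
  obtain ⟨M, rfl⟩ := hs
  obtain ⟨N, rfl⟩ := ht
  exact ⟨M * N, (map_mul mact M N).symm⟩

theorem IsMob.inv {s : Equiv.Perm (OnePoint k)} (hs : IsMob s) : IsMob s⁻¹ := by
  obtain ⟨M, rfl⟩ := hs
  exact ⟨M⁻¹, (map_inv mact M).symm⟩

/-- every point can be moved to `∞` -/
theorem mob_trans (P : OnePoint k) : ∃ t : Equiv.Perm (OnePoint k), IsMob t ∧ t P = ∞ := by
  induction P using OnePoint.rec with
  | infty => exact ⟨1, ⟨1, (map_one mact).symm⟩, rfl⟩
  | coe a =>
    have hdet : (!![0, 1; 1, -a] : Matrix (Fin 2) (Fin 2) k).det ≠ 0 := by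
      rw [Matrix.det_fin_two_of]
      simp
    let M : GL (Fin 2) k := Matrix.GeneralLinearGroup.mkOfDetNeZero !![0, 1; 1, -a] hdet
    refine ⟨mact M, ⟨M, rfl⟩, ?_⟩
    apply mact_some_zero
    have h1 : M 1 0 = 1 := rfl
    have h2 : M 1 1 = -a := rfl
    rw [h1, h2]
    ring

private theorem B1_det (M : GL (Fin 2) k) : M 0 0 * M 1 1 - M 0 1 * M 1 0 ≠ 0 := by
  have h := M.det_ne_zero
  rw [Matrix.det_fin_two] at h
  exact h

theorem mob_affine {s : Equiv.Perm (OnePoint k)} (hs : IsMob s) (h : s ∞ = ∞) :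
    ∃ a b : k, a ≠ 0 ∧ ∀ z : k, s (z : OnePoint k) = (a * z + b : k) := by
  obtain ⟨M, rfl⟩ := hs
  have hc : M 1 0 = 0 := by
    by_contra hc
    rw [mact_infty M hc] at h
    exact OnePoint.coe_ne_infty _ h
  have hdet := B1_det M
  rw [hc, mul_zero, sub_zero] at hdet
  have hd : M 1 1 ≠ 0 := right_ne_zero_of_mul hdet
  have ha : M 0 0 ≠ 0 := left_ne_zero_of_mul hdet
  refine ⟨M 0 0 / M 1 1, M 0 1 / M 1 1, div_ne_zero ha hd, fun z => ?_⟩
  have hz : M 1 0 * z + M 1 1 ≠ 0 := by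
    rw [hc, zero_mul, zero_add]
    exact hd
  rw [mact_some M z hz, hc, OnePoint.coe_eq_coe, zero_mul, zero_add, add_div, mul_div_right_comm]

theorem three_fix {s : Equiv.Perm (OnePoint k)} (hs : IsMob s) {P Q R : OnePoint k}
    (hP : s P = P) (hQ : s Q = Q) (hR : s R = R) (h1 : P ≠ Q) (h2 : P ≠ R) (h3 : Q ≠ R) : s = 1 := by
  obtain ⟨t, ht, htP⟩ := mob_trans P
  have hs' : IsMob (t * s * t⁻¹) := (ht.mul hs).mul ht.inv
  have hti : t⁻¹ ∞ = P := by
    rw [← htP]
    simp
  have hinf : (t * s * t⁻¹) ∞ = ∞ := by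
    simp only [Equiv.Perm.mul_apply]
    rw [hti, hP, htP]
  have hq : (t * s * t⁻¹) (t Q) = t Q := by
    have h0 : t⁻¹ (t Q) = Q := by simp
    simp only [Equiv.Perm.mul_apply]
    rw [h0, hQ]
  have hr : (t * s * t⁻¹) (t R) = t R := by
    have h0 : t⁻¹ (t R) = R := by simp
    simp only [Equiv.Perm.mul_apply]
    rw [h0, hR]
  have hQi : t Q ≠ ∞ := by
    intro h
    exact h1 (t.injective (htP.trans h.symm))
  have hRi : t R ≠ ∞ := by
    intro h
    exact h2 (t.injective (htP.trans h.symm))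
  have hQR : t Q ≠ t R := fun h => h3 (t.injective h)
  obtain ⟨q, hq'⟩ := OnePoint.ne_infty_iff_exists.mp hQi
  obtain ⟨r, hr'⟩ := OnePoint.ne_infty_iff_exists.mp hRi
  obtain ⟨a, b, ha, hab⟩ := mob_affine hs' hinf
  rw [← hq', hab q, OnePoint.coe_eq_coe] at hq
  rw [← hr', hab r, OnePoint.coe_eq_coe] at hr
  have hqr : q ≠ r := by
    intro h
    apply hQR
    rw [← hq', ← hr', h]
  have ha1 : a = 1 := by
    have h4 : (a - 1) * (q - r) = 0 := by linear_combination hq - hr
    rcases mul_eq_zero.mp h4 with h5 | h5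
    · exact sub_eq_zero.mp h5
    · exact absurd (sub_eq_zero.mp h5) hqr
  have hb0 : b = 0 := by
    rw [ha1] at hq
    linear_combination hq
  have hone : t * s * t⁻¹ = 1 := by
    ext x
    induction x using OnePoint.rec with
    | infty => rw [hinf]; rfl
    | coe z => rw [hab z, ha1, hb0, one_mul, add_zero]; rfl
  have h5 : t * s = t := by
    have h6 := mul_inv_eq_one.mp hone
    exact h6
  exact mul_eq_left.mp h5

theorem exists_fix [IsAlgClosed k] {s : Equiv.Perm (OnePoint k)} (hs : IsMob s) : ∃ P, s P = P := by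
  obtain ⟨M, rfl⟩ := hs
  by_cases hc : M 1 0 = 0
  · exact ⟨∞, mact_infty_zero M hc⟩
  · have hdeg : (C (M 1 0) * X ^ 2 + C (M 1 1 - M 0 0) * X + C (-M 0 1)).degree = 2 :=
      degree_quadratic hc
    obtain ⟨z, hz⟩ := IsAlgClosed.exists_root
      (C (M 1 0) * X ^ 2 + C (M 1 1 - M 0 0) * X + C (-M 0 1)) (by rw [hdeg]; decide)
    rw [IsRoot.def] at hz
    simp only [eval_add, eval_mul, eval_C, eval_pow, eval_X] at hz
    have hdet := B1_det M
    have hz' : M 1 0 * z + M 1 1 ≠ 0 := by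
      intro h0
      apply hdet
      have h2 : M 0 0 * z + M 0 1 = 0 := by linear_combination z * h0 - hz
      have h3 : M 1 0 * (M 0 0 * M 1 1 - M 0 1 * M 1 0) = 0 := by
        linear_combination (M 1 0 * M 0 0) * h0 - (M 1 0 ^ 2) * h2
      rcases mul_eq_zero.mp h3 with h4 | h4
      · exact absurd h4 hc
      · exact h4
    refine ⟨(z : OnePoint k), ?_⟩
    rw [mact_some M z hz', OnePoint.coe_eq_coe, div_eq_iff hz']
    linear_combination -hz

end Pool.Agent.Helper28.HA
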