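import Pool.Agent.Helper28.HA.B3

/-!
MP_143e28_ag, project HA: Burnside's lemma on the points with nontrivial stabilizer.

`S` = set of the points with nontrivial stabilizer (finite: every `s ≠ 1` has at most two fixed points, `three_fix`).
`R` = a set of representatives of the orbits of `G` on `S`.  Count the pairs `(s, P)`, `s ∈ G`, `s ≠ 1`, `s P = P`:
by points: `∑_{P ∈ S} (#stab P - 1) = ∑_{P ∈ R} (#G - #orb P)`.  By elements: every `s ≠ 1` has one or two fixed points
(`exists_fix`, `three_fix`); it has exactly one iff it lies in `uni G P` for a (unique) `P`, and `∑_{P ∈ S} (#uni P - 1) =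
∑_{P ∈ R} #orb P (#uni P - 1)` of them have one (`#uni` is constant on orbits: conjugation).  So
`∑_R (#G - #orb) = 2 (#G - 1) - ∑_R #orb (#uni - 1)`, which is the formula.
-/

set_option autoImplicit false

namespace Pool.Agent.Helper28.HA

open Polynomial OnePoint

variable {k : Type*} [Field k]

private lemma fix_cases [IsAlgClosed k] {s : Equiv.Perm (OnePoint k)} (hs : IsMob s) (h1 : s ≠ 1) :
    (∃ P, ∀ Q, s Q = Q ↔ Q = P) ∨ (∃ P P', P ≠ P' ∧ ∀ Q, s Q = Q ↔ Q = P ∨ Q = P') := by
  obtain ⟨P, hP⟩ := exists_fix hs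
  by_cases h : ∃ P', s P' = P' ∧ P ≠ P'
  · obtain ⟨P', hP', hne⟩ := h
    refine Or.inr ⟨P, P', hne, fun Q => ⟨fun hQ => ?_, ?_⟩⟩
    · by_contra hc
      push Not at hc
      exact h1 (three_fix hs hP hP' hQ hne (Ne.symm hc.1) (Ne.symm hc.2))
    · rintro (rfl | rfl)
      · exact hP
      · exact hP'
  · refine Or.inl ⟨P, fun Q => ⟨fun hQ => ?_, ?_⟩⟩
    · by_contra hc
      exact h ⟨Q, hQ, Ne.symm hc⟩
    · rintro rfl
      exact hP

omit [Field k] in
private lemma mem_orb_self (G : Subgroup (Equiv.Perm (OnePoint k))) (P : OnePoint k) :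
    P ∈ orb G P := ⟨1, G.one_mem, rfl⟩

omit [Field k] in
private lemma orb_eq (G : Subgroup (Equiv.Perm (OnePoint k))) {P Q : OnePoint k}
    (h : Q ∈ orb G P) : orb G Q = orb G P := by
  obtain ⟨g, hg, rfl⟩ := h
  ext X
  constructor
  · rintro ⟨s, hs, rfl⟩
    exact ⟨s * g, G.mul_mem hs hg, rfl⟩
  · rintro ⟨s, hs, rfl⟩
    refine ⟨s * g⁻¹, G.mul_mem hs (G.inv_mem hg), ?_⟩
    show s (g⁻¹ (g P)) = s P
    exact congrArg s (g.symm_apply_apply P)

omit [Field k] in
private lemma card_uni_eq (G : Subgroup (Equiv.Perm (OnePoint k))) {P Q : OnePoint k}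
    (h : Q ∈ orb G P) : Nat.card (uni G Q) = Nat.card (uni G P) := by
  obtain ⟨g, hg, rfl⟩ := h
  have e : uni G (g P) = (fun s => g * s * g⁻¹) '' uni G P := by
    ext s
    constructor
    · rintro ⟨hs, hs'⟩
      refine ⟨g⁻¹ * s * g, ⟨G.mul_mem (G.mul_mem (G.inv_mem hg) hs) hg, ?_⟩, by group⟩
      rcases hs' with rfl | hs'
      · left
        group
      · right
        intro Q
        rw [Equiv.Perm.mul_apply, Equiv.Perm.mul_apply, Equiv.Perm.inv_eq_iff_eq]
        rw [hs' (g Q)]
        exact g.injective.eq_iff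
    · rintro ⟨t, ⟨ht, ht'⟩, rfl⟩
      refine ⟨G.mul_mem (G.mul_mem hg ht) (G.inv_mem hg), ?_⟩
      rcases ht' with rfl | ht'
      · left
        group
      · right
        intro Q
        show g (t (g⁻¹ Q)) = Q ↔ Q = g P
        rw [← Equiv.Perm.eq_inv_iff_eq, ht' (g⁻¹ Q), Equiv.Perm.inv_eq_iff_eq]
  rw [e]
  refine Nat.card_image_of_injective ?_ _
  intro s t hst
  simpa using hst

theorem burnside [IsAlgClosed k] (G : Subgroup (Equiv.Perm (OnePoint k))) [Finite G]
    (hG : MobGroup G) :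
    ∃ R : Finset (OnePoint k),
      (∀ P ∈ R, 2 ≤ Nat.card (stab G P)) ∧
      (∀ P ∈ R, ∀ Q ∈ R, P ≠ Q → Disjoint (orb G P) (orb G Q)) ∧
      (∀ Q : OnePoint k, 2 ≤ Nat.card (stab G Q) → ∃ P ∈ R, Q ∈ orb G P) ∧
      ∑ P ∈ R, (Nat.card (orb G P) : ℤ) * (2 - Nat.card (uni G P)) =
        ((R.card : ℤ) - 2) * Nat.card G + 2 := by
  classical
  have hfin : (G : Set (Equiv.Perm (OnePoint k))).Finite := Set.toFinite _
  let GF : Finset (Equiv.Perm (OnePoint k)) := hfin.toFinset
  have hGF : ∀ s, s ∈ GF ↔ s ∈ G := fun s => by simp [GF]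
  have h1G : (1 : Equiv.Perm (OnePoint k)) ∈ GF := (hGF 1).2 G.one_mem
  have hcardG : Nat.card G = (GF.erase 1).card + 1 := by
    rw [Finset.card_erase_add_one h1G]
    exact Set.ncard_eq_toFinset_card _ hfin
  -- cards of the stabilizers
  have hstab : ∀ P, Nat.card (stab G P) = ((GF.erase 1).filter (fun s => s P = P)).card + 1 := by
    intro P
    have e : stab G P = ((insert 1 ((GF.erase 1).filter (fun s => s P = P)) :
        Finset (Equiv.Perm (OnePoint k))) : Set (Equiv.Perm (OnePoint k))) := by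
      ext s
      simp only [stab, Set.mem_ofPred_eq, Finset.coe_insert, Finset.coe_filter, Finset.mem_erase,
        Set.mem_insert_iff, hGF]
      constructor
      · rintro ⟨h1, h2⟩
        by_cases h : s = 1
        · exact Or.inl h
        · exact Or.inr ⟨⟨h, h1⟩, h2⟩
      · rintro (rfl | ⟨⟨_, h1⟩, h2⟩)
        · exact ⟨G.one_mem, rfl⟩
        · exact ⟨h1, h2⟩
    rw [e, Nat.card_coe_set_eq, Set.ncard_coe_finset, Finset.card_insert_of_notMem (by simp)]
  have huni : ∀ P, Nat.card (uni G P) =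
      ((GF.erase 1).filter (fun s => ∀ Q, s Q = Q ↔ Q = P)).card + 1 := by
    intro P
    have e : uni G P = ((insert 1 ((GF.erase 1).filter (fun s => ∀ Q, s Q = Q ↔ Q = P)) :
        Finset (Equiv.Perm (OnePoint k))) : Set (Equiv.Perm (OnePoint k))) := by
      ext s
      simp only [uni, Set.mem_ofPred_eq, Finset.coe_insert, Finset.coe_filter, Finset.mem_erase,
        Set.mem_insert_iff, hGF]
      constructor
      · rintro ⟨h1, h2⟩
        by_cases h : s = 1
        · exact Or.inl h
        · exact Or.inr ⟨⟨h, h1⟩, h2.resolve_left h⟩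
      · rintro (rfl | ⟨⟨_, h1⟩, h2⟩)
        · exact ⟨G.one_mem, Or.inl rfl⟩
        · exact ⟨h1, Or.inr h2⟩
    rw [e, Nat.card_coe_set_eq, Set.ncard_coe_finset, Finset.card_insert_of_notMem (by simp)]
  have hmob : ∀ s ∈ GF.erase 1, IsMob s ∧ s ≠ 1 := fun s hs =>
    ⟨hG s ((hGF s).1 (Finset.mem_of_mem_erase hs)), Finset.ne_of_mem_erase hs⟩
  -- the points with nontrivial stabilizer
  have hSfin : {P : OnePoint k | 2 ≤ Nat.card (stab G P)}.Finite := by
    refine Set.Finite.subset (s := ⋃ s ∈ GF.erase 1, {P | s P = P}) ?_ ?_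
    · refine Set.Finite.biUnion (Finset.finite_toSet _) fun s hs => ?_
      rcases fix_cases (hmob s hs).1 (hmob s hs).2 with ⟨P, hP⟩ | ⟨P, P', _, hP⟩
      · exact (Set.finite_singleton P).subset fun Q hQ => (hP Q).1 hQ
      · exact (Set.toFinite {P, P'}).subset fun Q hQ => (hP Q).1 hQ
    · intro P hP
      have hP' : 2 ≤ Nat.card (stab G P) := hP
      rw [hstab] at hP'
      obtain ⟨s, hs⟩ := Finset.card_pos.1 (by omega :
        0 < ((GF.erase 1).filter (fun s => s P = P)).card)
      rw [Finset.mem_filter] at hs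
      exact Set.mem_biUnion hs.1 hs.2
  let S : Finset (OnePoint k) := hSfin.toFinset
  have hS : ∀ P, P ∈ S ↔ 2 ≤ Nat.card (stab G P) := fun P => by simp [S]
  have hS' : ∀ s ∈ GF.erase 1, ∀ P, s P = P → P ∈ S := by
    intro s hs P hP
    rw [hS, hstab]
    have : 0 < ((GF.erase 1).filter (fun s => s P = P)).card :=
      Finset.card_pos.2 ⟨s, Finset.mem_filter.2 ⟨hs, hP⟩⟩
    omega
  -- every nontrivial element counts two
  have htwo : ∀ s ∈ GF.erase 1, (S.filter (fun P => s P = P)).card +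
      (S.filter (fun P => ∀ Q, s Q = Q ↔ Q = P)).card = 2 := by
    intro s hs
    rcases fix_cases (hmob s hs).1 (hmob s hs).2 with ⟨P, hP⟩ | ⟨P, P', hne, hP⟩
    · have hPS : P ∈ S := hS' s hs P ((hP P).2 rfl)
      have e1 : S.filter (fun P => s P = P) = {P} := by
        ext Q
        simp only [Finset.mem_filter, Finset.mem_singleton, hP]
        exact ⟨fun h => h.2, fun h => ⟨h ▸ hPS, h⟩⟩
      have e2 : S.filter (fun P => ∀ Q, s Q = Q ↔ Q = P) = {P} := by
        ext Q
        simp only [Finset.mem_filter, Finset.mem_singleton]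
        constructor
        · rintro ⟨_, h⟩
          exact (hP Q).1 ((h Q).2 rfl)
        · rintro rfl
          exact ⟨hPS, hP⟩
      rw [e1, e2, Finset.card_singleton]
    · have hPS : P ∈ S := hS' s hs P ((hP P).2 (Or.inl rfl))
      have hPS' : P' ∈ S := hS' s hs P' ((hP P').2 (Or.inr rfl))
      have e1 : S.filter (fun P => s P = P) = {P, P'} := by
        ext Q
        simp only [Finset.mem_filter, Finset.mem_insert, Finset.mem_singleton, hP]
        refine ⟨fun h => h.2, fun h => ⟨?_, h⟩⟩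
        rcases h with rfl | rfl
        · exact hPS
        · exact hPS'
      have e2 : S.filter (fun P => ∀ Q, s Q = Q ↔ Q = P) = ∅ := by
        rw [Finset.filter_eq_empty_iff]
        intro Q _ h
        have h3 := (h P).1 ((hP P).2 (Or.inl rfl))
        have h4 := (h P').1 ((hP P').2 (Or.inr rfl))
        exact hne (h3.trans h4.symm)
      rw [e1, e2, Finset.card_pair hne, Finset.card_empty]
  -- double counting
  have hcount : ∑ P ∈ S, ((Nat.card (stab G P) : ℤ) + Nat.card (uni G P) - 2) =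
      2 * ((Nat.card G : ℤ) - 1) := by
    have h3 : ∑ P ∈ S, (((GF.erase 1).filter (fun s => s P = P)).card +
        ((GF.erase 1).filter (fun s => ∀ Q, s Q = Q ↔ Q = P)).card) = 2 * (GF.erase 1).card := by
      rw [Finset.sum_add_distrib]
      have e1 : ∑ P ∈ S, ((GF.erase 1).filter (fun s => s P = P)).card =
          ∑ s ∈ GF.erase 1, (S.filter (fun P => s P = P)).card := by
        simp only [Finset.card_filter]
        exact Finset.sum_comm
      have e2 : ∑ P ∈ S, ((GF.erase 1).filter (fun s => ∀ Q, s Q = Q ↔ Q = P)).card =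
          ∑ s ∈ GF.erase 1, (S.filter (fun P => ∀ Q, s Q = Q ↔ Q = P)).card := by
        simp only [Finset.card_filter]
        exact Finset.sum_comm
      rw [e1, e2, ← Finset.sum_add_distrib, Finset.sum_congr rfl htwo, Finset.sum_const,
        smul_eq_mul, mul_comm]
    have h4 : ∀ P ∈ S, ((Nat.card (stab G P) : ℤ) + Nat.card (uni G P) - 2) =
        ((((GF.erase 1).filter (fun s => s P = P)).card +
        ((GF.erase 1).filter (fun s => ∀ Q, s Q = Q ↔ Q = P)).card : ℕ) : ℤ) := by
      intro P _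
      rw [hstab, huni]
      push_cast
      ring
    rw [Finset.sum_congr rfl h4, ← Nat.cast_sum, h3, hcardG]
    push_cast
    ring
  -- representatives
  let r : OnePoint k → OnePoint k := fun P =>
    if h : (orb G P).Nonempty then h.some else P
  have hr : ∀ P, r P ∈ orb G P := by
    intro P
    have h : (orb G P).Nonempty := ⟨P, mem_orb_self G P⟩
    simp only [r, dif_pos h]
    exact h.some_mem
  have hr2 : ∀ P Q, orb G P = orb G Q → r P = r Q := by
    intro P Q h
    have h1 : (orb G P).Nonempty := ⟨P, mem_orb_self G P⟩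
    have h2 : (orb G Q).Nonempty := ⟨Q, mem_orb_self G Q⟩
    simp only [r, dif_pos h1, dif_pos h2]
    congr 1
  have hstabeq : ∀ P Q, Q ∈ orb G P → Nat.card (stab G Q) = Nat.card (stab G P) := by
    intro P Q h
    have h1 := (card_orb_mul G P).2
    have h2 := (card_orb_mul G Q).2
    rw [orb_eq G h, ← h1] at h2
    have h3 : 0 < Nat.card (orb G P) := by
      have := (card_orb_mul G P).1.to_subtype
      have : Nonempty (orb G P) := ⟨⟨P, mem_orb_self G P⟩⟩
      exact Nat.card_pos
    exact Nat.eq_of_mul_eq_mul_left h3 h2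
  have hSorb : ∀ P ∈ S, ∀ Q ∈ orb G P, Q ∈ S := by
    intro P hP Q hQ
    rw [hS] at hP ⊢
    rw [hstabeq P Q hQ]
    exact hP
  have hrr : ∀ P, r (r P) = r P := fun P => hr2 _ _ (orb_eq G (hr P))
  have hmapsto : ∀ P ∈ S, r P ∈ S.image r := fun P hP => Finset.mem_image_of_mem _ hP
  have hR : ∀ P ∈ S.image r, P ∈ S ∧ r P = P := by
    intro P hP
    obtain ⟨Q, hQ, rfl⟩ := Finset.mem_image.1 hP
    exact ⟨hSorb Q hQ _ (hr Q), hrr Q⟩
  have hfib : ∀ P ∈ S.image r, orb G P = ((S.filter (fun Q => r Q = P) :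
      Finset (OnePoint k)) : Set (OnePoint k)) := by
    intro P hP
    obtain ⟨hPS, hrP⟩ := hR P hP
    ext Q
    simp only [Finset.coe_filter, Set.mem_ofPred_eq]
    constructor
    · intro hQ
      exact ⟨hSorb P hPS Q hQ, (hr2 Q P (orb_eq G hQ)).trans hrP⟩
    · rintro ⟨_, hQ⟩
      have h3 := hr Q
      rw [hQ] at h3
      rw [orb_eq G h3]
      exact mem_orb_self G Q
  refine ⟨S.image r, fun P hP => (hS P).1 (hR P hP).1, ?_, ?_, ?_⟩
  · intro P hP Q hQ hPQ
    rw [Set.disjoint_left]
    intro X hX hX'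
    apply hPQ
    rw [← (hR P hP).2, ← (hR Q hQ).2]
    exact hr2 P Q ((orb_eq G hX).symm.trans (orb_eq G hX'))
  · intro Q hQ
    refine ⟨r Q, hmapsto Q ((hS Q).2 hQ), ?_⟩
    rw [orb_eq G (hr Q)]
    exact mem_orb_self G Q
  · rw [← Finset.sum_fiberwise_of_maps_to hmapsto] at hcount
    have h3 : ∀ P ∈ S.image r, ∑ Q ∈ S.filter (fun Q => r Q = P),
        ((Nat.card (stab G Q) : ℤ) + Nat.card (uni G Q) - 2) =
        (Nat.card G : ℤ) - (Nat.card (orb G P) : ℤ) * (2 - Nat.card (uni G P)) := by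
      intro P hP
      have h4 : ∀ Q ∈ S.filter (fun Q => r Q = P),
          ((Nat.card (stab G Q) : ℤ) + Nat.card (uni G Q) - 2) =
          (Nat.card (stab G P) : ℤ) + Nat.card (uni G P) - 2 := by
        intro Q hQ
        have hQ' : Q ∈ orb G P := by
          rw [hfib P hP]
          exact hQ
        rw [hstabeq P Q hQ', card_uni_eq G hQ']
      have h5 : ((S.filter (fun Q => r Q = P)).card : ℤ) = (Nat.card (orb G P) : ℤ) := by
        rw [hfib P hP, Nat.card_coe_set_eq, Set.ncard_coe_finset]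
      rw [Finset.sum_congr rfl h4, Finset.sum_const, nsmul_eq_mul, h5,
        ← (card_orb_mul G P).2]
      push_cast
      ring
    rw [Finset.sum_congr rfl h3, Finset.sum_sub_distrib, Finset.sum_const, nsmul_eq_mul] at hcount
    linarith

end Pool.Agent.Helper28.HA
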