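import Mathlib

/-!
MP_143e28_ag, project HA: the arithmetic of the orbit lengths (pure arithmetic).

`c = #G`, `n i` orbit lengths, `q i = #uni`, `m i = #stab / #uni`, `B` is the union of the orbits `i ∈ T`.  `hT` (burn) is
Burnside.  Suppose `2 (N - 2) < c`.  Let `a` = number of `i ∈ R` with `q i ≥ 2` (then `q i ≥ p ≥ 3`), `b` = number of the
others (`q i = 1`).  As `2 n i ≤ c`: `b c / 2 ≥ ∑_{q i = 1} n i = (a + b - 2) c + 2 + ∑_{q i ≥ 3} n i (q i - 2)`, so
`a + b / 2 < 2`.
`a = 0`: `∑ n i = (b - 2) c + 2`; `b ≤ 2`: `N ≤ 2`; `b = 3`: `∑ n i = c + 2`; `#T = 3`: `N = c + 2`; `#T = 2`: the third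
orbit has `n = c - (N - 2) > c / 2`; `#T = 1`: `N = n i ∣ c`, `p ∣ c`, against `hc`.
`a = 1`, `b ≤ 1`: wild orbit `n = 1 + q t`; `b = 0`: `N = n`, `N = 1` modulo `p` (`p ∣ q`); `b = 1`: the tame one has
`n' = 2 + n (q - 2)`, `n' = 0` modulo `q`; `T` both or wild: `N = 1` modulo `p`.  `T` tame: `N = n' = q u`,
`u = 1 + t (q - 2)`, `N ∣ c = n q m` so `u ∣ m (1 + q t)`, `(q - 2) (1 + q t) = q u - 2`, so `u ∣ 2 m`, `m ∣ q - 1` so
`u ≤ 2 (q - 1)` (`q ≥ 3`); `q` is a power of `p` dividing `N`, `p ^ 2 ∤ N`: `q = p`; `N ≤ 2 p (p - 1) < 2 p ^ 2`.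
-/

set_option autoImplicit false

namespace Pool.Agent.Helper28.HA

theorem orbit_arith {ι : Type*} (R T : Finset ι) (hTR : T ⊆ R) (p N c : ℕ) (hp : p.Prime)
    (hp2 : p ≠ 2) (n q m : ι → ℕ) (hn : ∀ i ∈ R, 0 < n i) (hc1 : ∀ i ∈ R, n i * (q i * m i) = c)
    (h2 : ∀ i ∈ R, 2 ≤ q i * m i) (hq : ∀ i ∈ R, ∃ j, q i = p ^ j) (hm : ∀ i ∈ R, m i ∣ q i - 1)
    (hqn : ∀ i ∈ R, q i ∣ n i - 1)
    (hb : ∑ i ∈ R, (n i : ℤ) * (2 - q i) = ((R.card : ℤ) - 2) * c + 2)
    (hN : N = ∑ i ∈ T, n i) (hpN : p ∣ N) (hpN2 : ¬ p ^ 2 ∣ N) (hbig : 2 * p ^ 2 < N)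
    (hc : (∀ i ∈ R, q i = 1) → ¬ p ∣ c) : c ≤ 2 * (N - 2) := by
  classical
  by_contra hcon
  push Not at hcon
  have hp3 : 3 ≤ p := by
    have := hp.two_le
    omega
  have hp9 : 9 ≤ p ^ 2 := by nlinarith
  have hN18 : 18 < N := by omega
  have hq1 : ∀ i ∈ R, q i ≠ 1 → 3 ≤ q i ∧ p ∣ q i := by
    intro i hi h
    obtain ⟨j, hj⟩ := hq i hi
    have hj0 : j ≠ 0 := by
      rintro rfl
      exact h (by simpa using hj)
    have hd : p ∣ q i := by
      rw [hj]
      exact dvd_pow_self p hj0
    have hpos : 0 < q i := by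
      rw [hj]
      exact pow_pos hp.pos _
    exact ⟨le_trans hp3 (Nat.le_of_dvd hpos hd), hd⟩
  have hhalf : ∀ i ∈ R, q i = 1 → 2 * n i ≤ c := by
    intro i hi h
    have h1 := hc1 i hi
    have h3 := h2 i hi
    calc 2 * n i = n i * 2 := by ring
      _ ≤ n i * (q i * m i) := Nat.mul_le_mul_left _ h3
      _ = c := h1
  have hTne : T.Nonempty := by
    rw [Finset.nonempty_iff_ne_empty]
    rintro rfl
    simp at hN
    omega
  obtain ⟨i0, hi0⟩ := hTne
  have hcpos : 0 < c := by
    rw [← hc1 i0 (hTR hi0)]
    exact Nat.mul_pos (hn i0 (hTR hi0)) (by have := h2 i0 (hTR hi0); omega)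
  have hcard : (R.filter (fun i => q i = 1)).card + (R.filter (fun i => ¬ q i = 1)).card = R.card :=
    Finset.card_filter_add_card_filter_not _
  have hkey : 2 * (R.filter (fun i => ¬ q i = 1)).card + (R.filter (fun i => q i = 1)).card ≤ 3 := by
    have h1 : ∑ i ∈ R, 2 * ((n i : ℤ) * (2 - q i)) ≤ ∑ i ∈ R, (if q i = 1 then (c : ℤ) else 0) := by
      refine Finset.sum_le_sum fun i hi => ?_
      split_ifs with h
      · have := hhalf i hi h
        rw [h]
        push_cast
        have h4 : (2 : ℤ) * n i ≤ c := by exact_mod_cast this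
        linarith
      · have h3 : (3 : ℤ) ≤ q i := by exact_mod_cast (hq1 i hi h).1
        have h4 : (0 : ℤ) ≤ n i := by positivity
        nlinarith
    rw [← Finset.mul_sum, hb, ← Finset.sum_filter, Finset.sum_const, nsmul_eq_mul, ← hcard] at h1
    push_cast at h1
    by_contra h5
    push Not at h5
    have h6 : (4 : ℤ) ≤ 2 * ((R.filter (fun i => ¬ q i = 1)).card : ℤ)
        + ((R.filter (fun i => q i = 1)).card : ℤ) := by exact_mod_cast h5
    have h7 : (0 : ℤ) < c := by exact_mod_cast hcpos
    nlinarith
  have hsplit : ∑ i ∈ R \ T, n i + N = ∑ i ∈ R, n i := by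
    rw [hN]
    exact Finset.sum_sdiff hTR
  have hcardRT : (R \ T).card + T.card = R.card := Finset.card_sdiff_add_card_eq_card hTR
  rcases Nat.eq_zero_or_pos (R.filter (fun i => ¬ q i = 1)).card with hA0 | hApos
  · -- no wild orbit
    have hall : ∀ i ∈ R, q i = 1 := by
      intro i hi
      by_contra h
      have : i ∈ R.filter (fun i => ¬ q i = 1) := Finset.mem_filter.2 ⟨hi, h⟩
      rw [Finset.card_eq_zero.1 hA0] at this
      simp at this
    have hpc := hc hall
    have hsum : ∑ i ∈ R, (n i : ℤ) = ((R.card : ℤ) - 2) * c + 2 := by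
      rw [← hb]
      refine Finset.sum_congr rfl fun i hi => ?_
      rw [hall i hi]
      push_cast
      ring
    have hNle : (N : ℤ) ≤ ((R.card : ℤ) - 2) * c + 2 := by
      rw [← hsum]
      exact_mod_cast (by omega : N ≤ ∑ i ∈ R, n i)
    have hRle : R.card ≤ 3 := by omega
    have hR3 : R.card = 3 := by
      by_contra h
      have h8 : (R.card : ℤ) - 2 ≤ 0 := by
        have : R.card ≤ 2 := by omega
        have h9 : (R.card : ℤ) ≤ 2 := by exact_mod_cast this
        linarith
      have h10 : (0 : ℤ) ≤ c := by positivity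
      have h11 : ((R.card : ℤ) - 2) * c ≤ 0 := mul_nonpos_of_nonpos_of_nonneg h8 h10
      have h12 : (18 : ℤ) < N := by exact_mod_cast hN18
      linarith
    have hsumN : ∑ i ∈ R, n i = c + 2 := by
      rw [hR3] at hsum
      have : ((∑ i ∈ R, n i : ℕ) : ℤ) = ((c + 2 : ℕ) : ℤ) := by
        push_cast
        rw [hsum]
        push_cast
        ring
      exact_mod_cast this
    have hTpos : 0 < T.card := Finset.card_pos.2 ⟨i0, hi0⟩
    have hc3 : (R \ T).card = 0 ∨ (R \ T).card = 1 ∨ T.card = 1 := by omega
    rcases hc3 with h | h | h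
    · rw [Finset.card_eq_zero.1 h, Finset.sum_empty] at hsplit
      omega
    · obtain ⟨j, hj⟩ := Finset.card_eq_one.1 h
      have hjR : j ∈ R := by
        have : j ∈ R \ T := by rw [hj]; simp
        exact (Finset.mem_sdiff.1 this).1
      rw [hj, Finset.sum_singleton] at hsplit
      have := hhalf j hjR (hall j hjR)
      omega
    · obtain ⟨j, hj⟩ := Finset.card_eq_one.1 h
      have hjR : j ∈ R := by
        have : j ∈ T := by rw [hj]; simp
        exact hTR this
      rw [hj, Finset.sum_singleton] at hN
      apply hpc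
      rw [← hc1 j hjR]
      rw [hN] at hpN
      exact Dvd.dvd.mul_right hpN _
  · -- one wild orbit
    have hA1 : (R.filter (fun i => ¬ q i = 1)).card = 1 := by omega
    have hB1 : (R.filter (fun i => q i = 1)).card ≤ 1 := by omega
    obtain ⟨w, hw⟩ := Finset.card_eq_one.1 hA1
    have hwm : w ∈ R ∧ ¬ q w = 1 := by
      have : w ∈ R.filter (fun i => ¬ q i = 1) := by rw [hw]; simp
      exact Finset.mem_filter.1 this
    obtain ⟨hwR, hqw⟩ := hwm
    obtain ⟨hq3, hpq⟩ := hq1 w hwR hqw
    obtain ⟨t, ht⟩ := hqn w hwR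
    have hnw : n w = 1 + q w * t := by
      have := hn w hwR
      omega
    have hnp : ¬ p ∣ n w := by
      rw [hnw]
      intro h
      have h13 : p ∣ q w * t := Dvd.dvd.mul_right hpq t
      have h14 : p ∣ 1 := (Nat.dvd_add_left h13).1 h
      have := Nat.le_of_dvd one_pos h14
      omega
    have honly : ∀ i ∈ R, i ≠ w → q i = 1 := by
      intro i hi hiw
      by_contra h
      have : i ∈ R.filter (fun i => ¬ q i = 1) := Finset.mem_filter.2 ⟨hi, h⟩
      rw [hw, Finset.mem_singleton] at this
      exact hiw this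
    have hR2 : R.card ≤ 2 := by omega
    rcases Nat.lt_or_ge R.card 2 with hRlt | hRge
    · -- only the wild orbit
      have hR1 : R.card ≤ 1 := by omega
      have hi0w : ∀ i ∈ R, i = w := fun i hi => Finset.card_le_one.1 hR1 i hi w hwR
      have hTw : T = {w} := by
        apply Finset.Subset.antisymm
        · intro i hi
          rw [Finset.mem_singleton]
          exact hi0w i (hTR hi)
        · intro i hi
          rw [Finset.mem_singleton] at hi
          rw [hi, ← hi0w i0 (hTR hi0)]
          exact hi0
      rw [hTw, Finset.sum_singleton] at hN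
      rw [hN] at hpN
      exact hnp hpN
    · have hRc2 : R.card = 2 := le_antisymm hR2 hRge
      have hers : (R.erase w).card = 1 := by rw [Finset.card_erase_of_mem hwR, hRc2]
      obtain ⟨s, hs⟩ := Finset.card_eq_one.1 hers
      have hsm : s ∈ R ∧ s ≠ w := by
        have : s ∈ R.erase w := by rw [hs]; simp
        exact ⟨Finset.mem_of_mem_erase this, Finset.ne_of_mem_erase this⟩
      obtain ⟨hsR, hsw⟩ := hsm
      have hqs : q s = 1 := honly s hsR hsw
      have hRe : R = insert w {s} := by rw [← hs, Finset.insert_erase hwR]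
      have hwns : w ∉ ({s} : Finset ι) := by
        rw [Finset.mem_singleton]
        exact fun h => hsw h.symm
      have hb2 : (n w : ℤ) * (2 - q w) + n s = 2 := by
        have := hb
        rw [hRc2] at this
        rw [hRe, Finset.sum_insert hwns, Finset.sum_singleton, hqs] at this
        push_cast at this
        linarith
      obtain ⟨r, hr⟩ : ∃ r, q w = r + 2 := ⟨q w - 2, by omega⟩
      have hns : n s = q w * (1 + t * r) := by
        have h15 : (n s : ℤ) = ((q w * (1 + t * r) : ℕ) : ℤ) := by
          have h16 : (n s : ℤ) = 2 + (n w : ℤ) * (q w - 2) := by linarith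
          rw [h16, hnw, hr]
          push_cast
          ring
        exact_mod_cast h15
      by_cases hwT : w ∈ T
      · -- the wild orbit is in T
        have hps : p ∣ ∑ i ∈ T.erase w, n i := by
          refine Finset.dvd_sum fun i hi => ?_
          have hiR : i ∈ R := hTR (Finset.mem_of_mem_erase hi)
          have hiw : i ≠ w := Finset.ne_of_mem_erase hi
          have his : i = s := by
            have : i ∈ R.erase w := Finset.mem_erase.2 ⟨hiw, hiR⟩
            rw [hs, Finset.mem_singleton] at this
            exact this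
          rw [his, hns]
          exact Dvd.dvd.mul_right hpq _
        have hNe : N = n w + ∑ i ∈ T.erase w, n i := by
          rw [hN, Finset.add_sum_erase T n hwT]
        rw [hNe] at hpN
        exact hnp ((Nat.dvd_add_left hps).1 hpN)
      · have hTs : T = {s} := by
          apply Finset.Subset.antisymm
          · intro i hi
            have hiw : i ≠ w := by
              rintro rfl
              exact hwT hi
            have : i ∈ R.erase w := Finset.mem_erase.2 ⟨hiw, hTR hi⟩
            rw [hs] at this
            exact this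
          · intro i hi
            rw [Finset.mem_singleton] at hi
            have hi0w : i0 ≠ w := by
              rintro rfl
              exact hwT hi0
            have : i0 ∈ R.erase w := Finset.mem_erase.2 ⟨hi0w, hTR hi0⟩
            rw [hs, Finset.mem_singleton] at this
            rw [hi, ← this]
            exact hi0
        rw [hTs, Finset.sum_singleton] at hN
        have hNu : N = q w * (1 + t * r) := by rw [hN, hns]
        have hu : (1 + t * r) ∣ m w * n w := by
          have h17 : q w * (1 + t * r) ∣ q w * (m w * n w) := by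
            have h18 : q w * (m w * n w) = c := by rw [← hc1 w hwR]; ring
            rw [h18, ← hc1 s hsR, ← hns]
            exact Dvd.intro _ rfl
          exact Nat.dvd_of_mul_dvd_mul_left (by omega) h17
        have hu2 : (1 + t * r) ∣ 2 * m w := by
          have h19 : (1 + t * r) ∣ (m w * n w) * r := Dvd.dvd.mul_right hu r
          have h20 : (m w * n w) * r + 2 * m w = (1 + t * r) * (m w * q w) := by
            rw [hnw, hr]
            ring
          have h21 : (1 + t * r) ∣ (m w * n w) * r + 2 * m w := by
            rw [h20]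
            exact Dvd.intro _ rfl
          exact (Nat.dvd_add_right h19).1 h21
        have hmpos : 0 < m w := by
          rcases Nat.eq_zero_or_pos (m w) with h | h
          · have := h2 w hwR
            rw [h] at this
            omega
          · exact h
        have hmle : m w ≤ q w - 1 := Nat.le_of_dvd (by omega) (hm w hwR)
        have hule : 1 + t * r ≤ 2 * m w := Nat.le_of_dvd (by omega) hu2
        obtain ⟨j, hj⟩ := hq w hwR
        have hj1 : j ≤ 1 := by
          by_contra h
          apply hpN2
          have h22 : p ^ 2 ∣ q w := by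
            rw [hj]
            exact pow_dvd_pow p (by omega)
          rw [hNu]
          exact Dvd.dvd.mul_right h22 _
        have hqp : q w = p := by
          interval_cases j
          · exact absurd (by simpa using hj) hqw
          · simpa using hj
        rw [hqp] at hNu hmle
        have h23 : 1 + t * r ≤ 2 * p := by omega
        have h24 : N ≤ p * (2 * p) := by
          rw [hNu]
          exact Nat.mul_le_mul_left _ h23
        have h25 : p * (2 * p) = 2 * p ^ 2 := by ring
        omega

end Pool.Agent.Helper28.HA
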