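import Pool.Agent.Helper28.HA.B2
import Pool.Agent.Helper28.HA.B4
import Pool.Agent.Helper28.HA.B5

/-!
MP_143e28_ag, project HA: the bound for the stabilizer of a finite set of points.

`no_wild`: if `p ∣ #G`, Cauchy gives `s ∈ G` of order `p`; `exists_fix`, conjugate the fixed point to `∞`: `z ↦ a z + b`,
`a ^ p = 1`, so `a = 1` (characteristic `p`), a translation `≠ 1`: its only fixed point is `∞`, so `s ∈ uni G P`.
`mob_finite`: an element fixing three points of `B` is `1` (`three_fix`), so `G` embeds in the injections of three points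
into `B`.
`stab_bound`: by contradiction `2 (N - 2) < #G`; a point `P` of `B` with trivial stabilizer has an orbit of length `#G`
inside `B`, `#G ≤ N`, so (`N ≥ 4`) contradiction; so `B` is the union of the orbits of `T = {P ∈ R : orb P ⊆ B}`;
`orbit_arith`.
-/

set_option autoImplicit false

namespace Pool.Agent.Helper28.HA

open Polynomial OnePoint

variable {k : Type*} [Field k]

theorem B6_inv_apply {α : Type*} (t : Equiv.Perm α) (x : α) : t⁻¹ (t x) = x := by
  rw [← Equiv.Perm.mul_apply, inv_mul_cancel]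
  rfl

theorem B6_pow_affine {s : Equiv.Perm (OnePoint k)} {a b : k}
    (h : ∀ z : k, s (z : OnePoint k) = (a * z + b : k)) (n : ℕ) :
    ∃ c : k, ∀ z : k, (s ^ n) (z : OnePoint k) = (a ^ n * z + c : k) := by
  induction n with
  | zero => exact ⟨0, fun z => by simp⟩
  | succ n ih =>
    obtain ⟨c, hc⟩ := ih
    refine ⟨a * c + b, fun z => ?_⟩
    rw [pow_succ', Equiv.Perm.mul_apply, hc z, h]
    congr 1
    ring

/-- an element of order `p` has only one fixed point -/
theorem B6_unique_fix (p : ℕ) [Fact p.Prime] [CharP k p] {s : Equiv.Perm (OnePoint k)}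
    (hs : IsMob s) (hp : s ^ p = 1) (hs1 : s ≠ 1) {P Q : OnePoint k} (hP : s P = P) (hQ : s Q = Q) :
    Q = P := by
  by_contra hne
  obtain ⟨t, ht, htP⟩ := mob_trans P
  have hmob : IsMob (t * s * t⁻¹) := (ht.mul hs).mul ht.inv
  have htinv : t⁻¹ ∞ = P := by rw [← htP, B6_inv_apply]
  have hfix : (t * s * t⁻¹) ∞ = ∞ := by
    rw [Equiv.Perm.mul_apply, Equiv.Perm.mul_apply, htinv, hP, htP]
  obtain ⟨a, b, ha, hab⟩ := mob_affine hmob hfix
  have hpow : (t * s * t⁻¹) ^ p = 1 := by
    rw [conj_pow, hp, mul_one, mul_inv_cancel]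
  obtain ⟨c, hc⟩ := B6_pow_affine hab p
  rw [hpow] at hc
  have h0 := hc 0
  have h1 := hc 1
  rw [Equiv.Perm.one_apply] at h0 h1
  have h0' : (0 : k) = a ^ p * 0 + c := OnePoint.coe_injective h0
  have h1' : (1 : k) = a ^ p * 1 + c := OnePoint.coe_injective h1
  have hap : a ^ p = 1 := by
    have : c = 0 := by rw [h0']; ring
    rw [this] at h1'
    rw [h1']; ring
  have ha1 : a = 1 := by
    have h2 : (a - 1) ^ p = 0 := by rw [sub_pow_char, hap, one_pow, sub_self]
    exact sub_eq_zero.1 (pow_eq_zero_iff (Fact.out (p := p.Prime)).ne_zero |>.1 h2)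
  have htQ : t Q ≠ ∞ := by
    intro h
    exact hne (t.injective (h.trans htP.symm))
  obtain ⟨z, hz⟩ := OnePoint.ne_infty_iff_exists.1 htQ
  have hfix2 : (t * s * t⁻¹) (z : OnePoint k) = (z : OnePoint k) := by
    rw [Equiv.Perm.mul_apply, Equiv.Perm.mul_apply, hz, B6_inv_apply, hQ]
  have h3 : (a * z + b : k) = z := OnePoint.coe_injective ((hab z).symm.trans hfix2)
  rw [ha1, one_mul] at h3
  have hb : b = 0 := by
    have := congrArg (fun u => u - z) h3
    simpa using this
  have hone : t * s * t⁻¹ = 1 := by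
    ext w
    induction w using OnePoint.rec with
    | infty => rw [hfix]; rfl
    | coe w => rw [hab w, ha1, hb, one_mul, add_zero]; rfl
  apply hs1
  have : s = t⁻¹ * (t * s * t⁻¹) * t := by group
  rw [this, hone]
  group

theorem no_wild [IsAlgClosed k] (p : ℕ) [Fact p.Prime] [CharP k p]
    (G : Subgroup (Equiv.Perm (OnePoint k))) [Finite G] (hG : MobGroup G)
    (h : ∀ P, Nat.card (uni G P) = 1) : ¬ p ∣ Nat.card G := by
  intro hdvd
  obtain ⟨x, hx⟩ := exists_prime_orderOf_dvd_card' p hdvd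
  have hs : (x : Equiv.Perm (OnePoint k)) ∈ G := x.2
  have hx1 : (x : Equiv.Perm (OnePoint k)) ≠ 1 := by
    intro h1
    have : x = 1 := Subtype.ext h1
    rw [this, orderOf_one] at hx
    exact (Fact.out (p := p.Prime)).one_lt.ne hx
  have hxp : (x : Equiv.Perm (OnePoint k)) ^ p = 1 := by
    have h1 : x ^ p = 1 := by rw [← hx]; exact pow_orderOf_eq_one x
    have := congrArg (fun g : G => (g : Equiv.Perm (OnePoint k))) h1
    simpa using this
  obtain ⟨P, hP⟩ := exists_fix (hG _ hs)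
  have hmem : (x : Equiv.Perm (OnePoint k)) ∈ uni G P := by
    refine ⟨hs, Or.inr fun Q => ⟨fun hQ => ?_, fun hQ => by rw [hQ, hP]⟩⟩
    exact B6_unique_fix p (hG _ hs) hxp hx1 hP hQ
  have hmem1 : (1 : Equiv.Perm (OnePoint k)) ∈ uni G P := ⟨G.one_mem, Or.inl rfl⟩
  have h1 := h P
  rw [Nat.card_eq_one_iff_unique] at h1
  obtain ⟨hsub, -⟩ := h1
  have := hsub.elim (⟨_, hmem⟩ : uni G P) ⟨_, hmem1⟩
  exact hx1 (congrArg Subtype.val this)

theorem mob_finite (G : Subgroup (Equiv.Perm (OnePoint k))) (hG : MobGroup G)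
    (B : Set (OnePoint k)) (hB : B.Finite) (h3 : 3 ≤ Nat.card B) (hGB : ∀ s ∈ G, ∀ P ∈ B, s P ∈ B) :
    Finite G ∧ Nat.card G ≤ Nat.card B ^ 3 := by
  have : Finite B := hB
  rw [Nat.card_coe_set_eq] at h3
  obtain ⟨P, Q, R, hP, hQ, hR, h12, h13, h23⟩ := (Set.two_lt_ncard_iff hB).1 (by omega)
  let φ : G → B × B × B := fun s => (⟨s.1 P, hGB _ s.2 P hP⟩, ⟨s.1 Q, hGB _ s.2 Q hQ⟩,
    ⟨s.1 R, hGB _ s.2 R hR⟩)
  have hφ : Function.Injective φ := by
    intro s t hst
    have e1 : s.1 P = t.1 P := congrArg (fun u => (u.1 : OnePoint k)) hst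
    have e2 : s.1 Q = t.1 Q := congrArg (fun u => (u.2.1 : OnePoint k)) hst
    have e3 : s.1 R = t.1 R := congrArg (fun u => (u.2.2 : OnePoint k)) hst
    have hone : t.1⁻¹ * s.1 = 1 := by
      refine three_fix (hG _ (G.mul_mem (G.inv_mem t.2) s.2)) (P := P) (Q := Q) (R := R)
        ?_ ?_ ?_ h12 h13 h23
      · rw [Equiv.Perm.mul_apply, e1, B6_inv_apply]
      · rw [Equiv.Perm.mul_apply, e2, B6_inv_apply]
      · rw [Equiv.Perm.mul_apply, e3, B6_inv_apply]
    exact Subtype.ext (inv_mul_eq_one.1 hone).symm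
  refine ⟨Finite.of_injective φ hφ, ?_⟩
  calc Nat.card G ≤ Nat.card (B × B × B) := Nat.card_le_card_of_injective φ hφ
    _ = Nat.card B ^ 3 := by rw [Nat.card_prod, Nat.card_prod]; ring

theorem B6_uni_subset (G : Subgroup (Equiv.Perm (OnePoint k))) (P : OnePoint k) :
    uni G P ⊆ stab G P := by
  rintro s ⟨hs, h | h⟩
  · exact ⟨hs, by rw [h]; rfl⟩
  · exact ⟨hs, (h P).2 rfl⟩

theorem B6_uni_conj (G : Subgroup (Equiv.Perm (OnePoint k))) [Finite G] {P Q : OnePoint k}
    (h : Q ∈ orb G P) : Nat.card (uni G Q) ≤ Nat.card (uni G P) := by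
  obtain ⟨t, ht, rfl⟩ := h
  have hfin : ∀ P, (uni G P).Finite := fun P =>
    Set.Finite.subset (s := (G : Set (Equiv.Perm (OnePoint k)))) (Set.toFinite _) fun s hs => hs.1
  have : Finite (uni G P) := hfin P
  have hmem : ∀ s : uni G (t P), t⁻¹ * s.1 * t ∈ uni G P := by
    intro s
    obtain ⟨s, hs, h1⟩ := s
    refine ⟨G.mul_mem (G.mul_mem (G.inv_mem ht) hs) ht, ?_⟩
    rcases h1 with h1 | h1
    · left
      subst h1
      show t⁻¹ * 1 * t = 1
      group
    · right
      intro Q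
      rw [Equiv.Perm.mul_apply, Equiv.Perm.mul_apply, Equiv.Perm.inv_eq_iff_eq]
      constructor
      · intro h2
        exact t.injective ((h1 _).1 h2.symm.symm)
      · intro h2
        rw [h2]
        exact ((h1 _).2 rfl)
  refine Nat.card_le_card_of_injective (fun s => (⟨_, hmem s⟩ : uni G P)) ?_
  intro s s' hss
  have h1 : t⁻¹ * s.1 * t = t⁻¹ * s'.1 * t := congrArg Subtype.val hss
  exact Subtype.ext (mul_left_cancel (mul_right_cancel h1))

theorem B6_orb_symm (G : Subgroup (Equiv.Perm (OnePoint k))) {P Q : OnePoint k}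
    (h : Q ∈ orb G P) : P ∈ orb G Q := by
  obtain ⟨t, ht, rfl⟩ := h
  exact ⟨t⁻¹, G.inv_mem ht, B6_inv_apply _ _⟩

theorem B6_mem_orb (G : Subgroup (Equiv.Perm (OnePoint k))) (P : OnePoint k) : P ∈ orb G P :=
  ⟨1, G.one_mem, rfl⟩

theorem stab_bound [IsAlgClosed k] (p : ℕ) [Fact p.Prime] (hp : p ≠ 2) [CharP k p]
    (G : Subgroup (Equiv.Perm (OnePoint k))) (hG : MobGroup G)
    (B : Set (OnePoint k)) (hB : B.Finite) (hGB : ∀ s ∈ G, ∀ P ∈ B, s P ∈ B)
    (h1 : p ∣ Nat.card B) (h2 : ¬ p ^ 2 ∣ Nat.card B) (h3 : 2 * p ^ 2 < Nat.card B) :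
    Nat.card G ≤ 2 * (Nat.card B - 2) := by
  classical
  have hpp : p.Prime := Fact.out
  have hp2 : 2 ≤ p := hpp.two_le
  have hp4 : 4 ≤ p ^ 2 := by nlinarith
  obtain ⟨hfin, -⟩ := mob_finite G hG B hB (by omega) hGB
  by_contra hcon
  push Not at hcon
  obtain ⟨R, hR1, hR2, hR3, hR4⟩ := burnside G hG
  choose m hm1 hm2 using fun P => card_stab G hG P
  have hfinB : Finite B := hB
  have horbB : ∀ P ∈ B, orb G P ⊆ B := by
    rintro P hP Q ⟨s, hs, rfl⟩
    exact hGB s hs P hP
  have hstab : ∀ P ∈ B, 2 ≤ Nat.card (stab G P) := by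
    intro P hP
    by_contra hlt
    push Not at hlt
    obtain ⟨hf, hmul⟩ := card_orb_mul G P
    have hc0 : 0 < Nat.card G := Nat.card_pos
    have h5 : Nat.card (orb G P) ≤ Nat.card B := Nat.card_mono hB (horbB P hP)
    have h6 : Nat.card (stab G P) ≤ 1 := by omega
    have h7 : Nat.card G ≤ Nat.card (orb G P) := by
      rw [← hmul]
      calc Nat.card (orb G P) * Nat.card (stab G P) ≤ Nat.card (orb G P) * 1 :=
            Nat.mul_le_mul_left _ h6
        _ = _ := mul_one _
    omega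
  set T : Finset (OnePoint k) := R.filter fun P => orb G P ⊆ B with hT
  have hBT : B = ⋃ P ∈ T, orb G P := by
    ext Q
    rw [Set.mem_iUnion₂]
    constructor
    · intro hQ
      obtain ⟨P, hP, hQP⟩ := hR3 Q (hstab Q hQ)
      refine ⟨P, ?_, hQP⟩
      rw [hT, Finset.mem_filter]
      have hPB : P ∈ B := horbB Q hQ (B6_orb_symm G hQP)
      exact ⟨hP, horbB P hPB⟩
    · rintro ⟨P, hP, hQP⟩
      exact (Finset.mem_filter.1 hP).2 hQP
  have hN : Nat.card B = ∑ P ∈ T, Nat.card (orb G P) := by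
    have h5 : B = ((T.biUnion fun P => (card_orb_mul G P).1.toFinset : Finset (OnePoint k)) :
        Set (OnePoint k)) := by
      rw [Finset.coe_biUnion]
      simp only [Set.Finite.coe_toFinset, Finset.mem_coe]
      exact hBT
    rw [h5, Nat.card_coe_set_eq, Set.ncard_coe_finset, Finset.card_biUnion]
    · refine Finset.sum_congr rfl fun P _ => ?_
      have e1 : ∀ (S : Set (OnePoint k)) (hS : S.Finite), hS.toFinset.card = Nat.card S := by
        intro S hS
        rw [Nat.card_coe_set_eq, Set.ncard_eq_toFinset_card S hS]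
      exact e1 _ _
    · intro P hP Q hQ hne
      have := hR2 P (Finset.mem_filter.1 hP).1 Q (Finset.mem_filter.1 hQ).1 hne
      show Disjoint _ _
      rw [Finset.disjoint_left]
      intro x hx hx'
      rw [Set.Finite.mem_toFinset] at hx hx'
      exact Set.disjoint_left.1 this hx hx'
  have hres := orbit_arith R T (Finset.filter_subset _ _) p (Nat.card B) (Nat.card G) hpp hp
    (fun P => Nat.card (orb G P)) (fun P => Nat.card (uni G P)) m ?_ ?_ ?_ ?_ ?_ ?_ hR4 hN h1 h2 h3 ?_
  · omega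
  · intro P _
    have : Finite (orb G P) := (card_orb_mul G P).1
    have : Nonempty (orb G P) := ⟨⟨P, B6_mem_orb G P⟩⟩
    exact Nat.card_pos
  · intro P _
    have := (card_orb_mul G P).2
    rw [hm1 P] at this
    exact this
  · intro P hP
    have := hR1 P hP
    rw [hm1 P] at this
    exact this
  · intro P _
    exact card_uni p G hG P
  · intro P _
    exact hm2 P
  · intro P _
    exact uni_dvd G hG P
  · intro hall
    refine no_wild p G hG fun P => ?_
    have hfinu : ∀ P, Finite (uni G P) := fun P =>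
      Set.Finite.subset (s := (G : Set (Equiv.Perm (OnePoint k)))) (Set.toFinite _) fun s hs => hs.1
    have hfins : ∀ P, (stab G P).Finite := fun P =>
      Set.Finite.subset (s := (G : Set (Equiv.Perm (OnePoint k)))) (Set.toFinite _) fun s hs => hs.1
    have hpos : 0 < Nat.card (uni G P) := by
      have := hfinu P
      have : Nonempty (uni G P) := ⟨⟨1, G.one_mem, Or.inl rfl⟩⟩
      exact Nat.card_pos
    have hle : Nat.card (uni G P) ≤ 1 := by
      by_cases hst : 2 ≤ Nat.card (stab G P)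
      · obtain ⟨P0, hP0, hPP0⟩ := hR3 P hst
        exact (B6_uni_conj G hPP0).trans (hall P0 hP0).le
      · have h5 : Nat.card (uni G P) ≤ Nat.card (stab G P) :=
          Nat.card_mono (hfins P) (B6_uni_subset G P)
        omega
    omega

end Pool.Agent.Helper28.HA
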