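import Mathlib

/-!
MP_143e28_ag, project HA (helper28): hyperelliptic curves in odd characteristic and their automorphism groups.
Definitions.
-/

set_option autoImplicit false

namespace Pool.Agent.Helper28.HA

open Polynomial

/-- `(x, y, f)` presents `F` as the function field of the hyperelliptic curve `y ^ 2 = f (x)` of genus `g`
(characteristic different from `2`) -/
structure Pres (k F : Type*) [Field k] [Field F] [Algebra k F] (g : ℕ) (x y : F) (f : k[X]) : Prop where
  trans : Transcendental k x
  gen : IntermediateField.adjoin k {x, y} = ⊤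
  sqf : Squarefree f
  deg : f.natDegree = 2 * g + 1 ∨ f.natDegree = 2 * g + 2
  eqn : y ^ 2 = aeval x f

/-- `F` is the function field of a hyperelliptic curve of genus `g` over `k` -/
def IsHyperelliptic (k F : Type*) [Field k] [Field F] [Algebra k F] (g : ℕ) : Prop :=
  ∃ (x y : F) (f : k[X]), Pres k F g x y f

/-- the largest number of automorphisms of a hyperelliptic curve of genus `g` over `k` -/
noncomputable def muHyp.{u} (k : Type u) [Field k] (g : ℕ) : ℕ :=
  sSup {n : ℕ | ∃ (F : Type u) (_ : Field F) (_ : Algebra k F),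
    IsHyperelliptic k F g ∧ n = Nat.card (F ≃ₐ[k] F)}

open Classical in
/-- the permutation of the projective line `OnePoint k` given by a matrix -/
noncomputable def mact {k : Type*} [Field k] : GL (Fin 2) k →* Equiv.Perm (OnePoint k) :=
  MulAction.toPermHom (GL (Fin 2) k) (OnePoint k)

/-- Moebius transformations of the projective line `OnePoint k` -/
def IsMob {k : Type*} [Field k] (s : Equiv.Perm (OnePoint k)) : Prop :=
  ∃ M : GL (Fin 2) k, s = mact M

/-- a group of Moebius transformations -/
def MobGroup {k : Type*} [Field k] (G : Subgroup (Equiv.Perm (OnePoint k))) : Prop :=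
  ∀ s ∈ G, IsMob s

/-- the stabilizer of a point in `G` -/
def stab {k : Type*} (G : Subgroup (Equiv.Perm (OnePoint k))) (P : OnePoint k) :
    Set (Equiv.Perm (OnePoint k)) := {s | s ∈ G ∧ s P = P}

/-- the elements of `G` which are `1` or have `P` as their only fixed point -/
def uni {k : Type*} (G : Subgroup (Equiv.Perm (OnePoint k))) (P : OnePoint k) :
    Set (Equiv.Perm (OnePoint k)) := {s | s ∈ G ∧ (s = 1 ∨ ∀ Q, s Q = Q ↔ Q = P)}

/-- the orbit of a point -/
def orb {k : Type*} (G : Subgroup (Equiv.Perm (OnePoint k))) (P : OnePoint k) :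
    Set (OnePoint k) := {Q | ∃ s ∈ G, s P = Q}

/-- the branch points of `y ^ 2 = f (x)`, genus `g` -/
def Br {k : Type*} [Field k] (g : ℕ) (f : k[X]) : Set (OnePoint k) :=
  {P | (∃ a : k, f.eval a = 0 ∧ P = (a : OnePoint k)) ∨ (f.natDegree = 2 * g + 1 ∧ P = OnePoint.infty)}

end Pool.Agent.Helper28.HA
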