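import Pool.Agent.Helper28.HA.A3

/-!
MP_143e28_ag, project HA: the group of Moebius transformations of a hyperelliptic curve.

`G` = the permutations `mact M` for the matrices `M` such that `s x = M (x)` for some automorphism `s`
(`s t x = M_t (M_s x)`: closed under products and inverses).  The map from the automorphisms to `G`: `s` and `s'` with the same
`mact M` have `s x = s' x` (`mact M = mact M'` on the infinite set `k`: `M' = c M`), so `s' = s` or `s' = s ι`,
`(s' y) ^ 2 = f (s x) = (s y) ^ 2`: at most two automorphisms over every element of `G` (an automorphism is determined by the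
images of `x` and `y`).  Elements of `G` preserve `Br g f` (`auto_branch`).
-/

set_option autoImplicit false

namespace Pool.Agent.Helper28.HA

open Polynomial OnePoint

variable {k F : Type*} [Field k] [Field F] [Algebra k F]

/-- `s x = M (x)` -/
private def A4_rel (x : F) (s : F ≃ₐ[k] F) (M : GL (Fin 2) k) : Prop :=
  s x * (algebraMap k F (M 1 0) * x + algebraMap k F (M 1 1)) =
    algebraMap k F (M 0 0) * x + algebraMap k F (M 0 1)

private theorem A4_lin_ne {x : F} (hx : Transcendental k x) (M : GL (Fin 2) k) :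
    algebraMap k F (M 1 0) * x + algebraMap k F (M 1 1) ≠ 0 := by
  intro h0
  have hp : (C (M 1 0) * X + C (M 1 1) : k[X]) = 0 := by
    by_contra hne
    exact hx ⟨C (M 1 0) * X + C (M 1 1), hne, by simpa using h0⟩
  have h1 : M 1 0 = 0 := by
    have := congrArg (fun q : k[X] => q.coeff 1) hp
    simpa [coeff_C] using this
  have h2 : M 1 1 = 0 := by
    have := congrArg (fun q : k[X] => q.coeff 0) hp
    simpa [coeff_C] using this
  have hd := M.det_ne_zero
  rw [Matrix.det_fin_two, h1, h2] at hd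
  simp at hd

private theorem A4_one (x : F) : A4_rel x (1 : F ≃ₐ[k] F) 1 := by
  simp [A4_rel]

private theorem A4_mul {x : F} {s t : F ≃ₐ[k] F} {M N : GL (Fin 2) k} (hx : Transcendental k x)
    (hs : A4_rel x s M) (ht : A4_rel x t N) : A4_rel x (t * s) (M * N) := by
  unfold A4_rel at *
  have h1 := congrArg t hs
  simp only [map_mul, map_add, AlgEquiv.commutes] at h1
  have hD := A4_lin_ne hx N
  have e : (t * s) x = t (s x) := rfl
  rw [e]
  have hm : ∀ i j, (M * N) i j = M i 0 * N 0 j + M i 1 * N 1 j := by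
    intro i j
    rw [Units.val_mul, Matrix.mul_apply, Fin.sum_univ_two]
  simp only [hm, map_add, map_mul]
  linear_combination (algebraMap k F (N 1 0) * x + algebraMap k F (N 1 1)) * h1 +
    (algebraMap k F (M 0 0) - t (s x) * algebraMap k F (M 1 0)) * ht

private theorem A4_inv {x : F} {s : F ≃ₐ[k] F} {M : GL (Fin 2) k}
    (hs : A4_rel x s M) : A4_rel x s⁻¹ M⁻¹ := by
  unfold A4_rel at *
  have h1 := congrArg (s⁻¹ : F ≃ₐ[k] F) hs
  have e : (s⁻¹ : F ≃ₐ[k] F) (s x) = x := s.symm_apply_apply x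
  simp only [map_mul, map_add, AlgEquiv.commutes, e] at h1
  have hd : (M : Matrix (Fin 2) (Fin 2) k).det ≠ 0 := M.det_ne_zero
  have hi : ((M⁻¹ : GL (Fin 2) k) : Matrix (Fin 2) (Fin 2) k) =
      (M : Matrix (Fin 2) (Fin 2) k).det⁻¹ • !![M 1 1, -M 0 1; -M 1 0, M 0 0] := by
    rw [Matrix.coe_units_inv, Matrix.inv_def, Matrix.adjugate_fin_two, Ring.inverse_eq_inv']
  have i00 : (M⁻¹ : GL (Fin 2) k) 0 0 = (M : Matrix (Fin 2) (Fin 2) k).det⁻¹ * M 1 1 := by
    rw [hi]; simp
  have i01 : (M⁻¹ : GL (Fin 2) k) 0 1 = (M : Matrix (Fin 2) (Fin 2) k).det⁻¹ * (-M 0 1) := by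
    rw [hi]; simp
  have i10 : (M⁻¹ : GL (Fin 2) k) 1 0 = (M : Matrix (Fin 2) (Fin 2) k).det⁻¹ * (-M 1 0) := by
    rw [hi]; simp
  have i11 : (M⁻¹ : GL (Fin 2) k) 1 1 = (M : Matrix (Fin 2) (Fin 2) k).det⁻¹ * M 0 0 := by
    rw [hi]; simp
  rw [i00, i01, i10, i11]
  simp only [map_mul, map_neg]
  linear_combination (-algebraMap k F ((M : Matrix (Fin 2) (Fin 2) k).det⁻¹)) * h1

private theorem A4_eq [Infinite k] {x : F} (hx : Transcendental k x) {s s' : F ≃ₐ[k] F}
    {M M' : GL (Fin 2) k} (hs : A4_rel x s M) (hs' : A4_rel x s' M') (hm : mact M = mact M') :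
    s x = s' x := by
  have key : ∀ a : k, (M 0 0 * a + M 0 1) * (M' 1 0 * a + M' 1 1) =
      (M' 0 0 * a + M' 0 1) * (M 1 0 * a + M 1 1) := by
    intro a
    have ha : mact M (a : OnePoint k) = mact M' (a : OnePoint k) := by rw [hm]
    by_cases h1 : M 1 0 * a + M 1 1 = 0
    · by_cases h2 : M' 1 0 * a + M' 1 1 = 0
      · rw [h1, h2]; ring
      · rw [mact_some_zero M a h1, mact_some M' a h2] at ha
        exact absurd ha (OnePoint.infty_ne_coe _)
    · by_cases h2 : M' 1 0 * a + M' 1 1 = 0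
      · rw [mact_some M a h1, mact_some_zero M' a h2] at ha
        exact absurd ha (OnePoint.coe_ne_infty _)
      · rw [mact_some M a h1, mact_some M' a h2, OnePoint.coe_eq_coe, div_eq_div_iff h1 h2] at ha
        exact ha
  have hp : ((C (M 0 0) * X + C (M 0 1)) * (C (M' 1 0) * X + C (M' 1 1)) -
      (C (M' 0 0) * X + C (M' 0 1)) * (C (M 1 0) * X + C (M 1 1)) : k[X]) = 0 := by
    apply Polynomial.funext
    intro a
    simp only [eval_sub, eval_mul, eval_add, eval_C, eval_X, eval_zero]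
    rw [key a, sub_self]
  have hq := congrArg (aeval x) hp
  simp only [map_sub, map_mul, map_add, aeval_C, aeval_X, map_zero] at hq
  have d1 := A4_lin_ne hx M
  have d2 := A4_lin_ne hx M'
  unfold A4_rel at hs hs'
  have : (s x - s' x) * ((algebraMap k F (M 1 0) * x + algebraMap k F (M 1 1)) *
      (algebraMap k F (M' 1 0) * x + algebraMap k F (M' 1 1))) = 0 := by
    linear_combination (algebraMap k F (M' 1 0) * x + algebraMap k F (M' 1 1)) * hs -
      (algebraMap k F (M 1 0) * x + algebraMap k F (M 1 1)) * hs' + hq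
  rcases mul_eq_zero.mp this with h | h
  · exact sub_eq_zero.mp h
  · exact absurd h (mul_ne_zero d1 d2)

private theorem A4_ext {g : ℕ} {x y : F} {f : k[X]} (h : Pres k F g x y f) {s s' : F ≃ₐ[k] F}
    (h1 : s x = s' x) (h2 : s y = s' y) : s = s' := by
  ext z
  have hz : z ∈ IntermediateField.adjoin k ({x, y} : Set F) := by rw [h.gen]; trivial
  induction hz using IntermediateField.adjoin_induction with
  | mem u hu =>
    rcases hu with rfl | hu
    · exact h1
    · rw [Set.mem_singleton_iff] at hu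
      rw [hu]; exact h2
  | algebraMap u => simp
  | add u v _ _ hu hv => rw [map_add, map_add, hu, hv]
  | inv u _ hu => rw [map_inv₀, map_inv₀, hu]
  | mul u v _ _ hu hv => rw [map_mul, map_mul, hu, hv]

private theorem A4_sq {g : ℕ} {x y : F} {f : k[X]} (h : Pres k F g x y f) {s s' : F ≃ₐ[k] F}
    (h1 : s x = s' x) : s y = s' y ∨ s y = -s' y := by
  apply sq_eq_sq_iff_eq_or_eq_neg.mp
  rw [← map_pow, ← map_pow, h.eqn]
  have a1 : s (aeval x f) = aeval (s x) f := by
    simpa using (Polynomial.aeval_algHom_apply (s : F →ₐ[k] F) x f).symm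
  have a2 : s' (aeval x f) = aeval (s' x) f := by
    simpa using (Polynomial.aeval_algHom_apply (s' : F →ₐ[k] F) x f).symm
  rw [a1, a2, h1]

theorem auto_group [IsAlgClosed k] (h2 : (2 : k) ≠ 0) {g : ℕ} (hg : 2 ≤ g) {x y : F} {f : k[X]}
    (h : Pres k F g x y f) :
    ∃ G : Subgroup (Equiv.Perm (OnePoint k)), MobGroup G ∧
      (∀ s ∈ G, ∀ P ∈ Br g f, s P ∈ Br g f) ∧
      (Finite G → Finite (F ≃ₐ[k] F) ∧ Nat.card (F ≃ₐ[k] F) ≤ 2 * Nat.card G) := by
  have : Infinite k := IsAlgClosed.instInfinite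
  let G : Subgroup (Equiv.Perm (OnePoint k)) :=
    { carrier := {p | ∃ (s : F ≃ₐ[k] F) (M : GL (Fin 2) k), A4_rel x s M ∧ p = mact M}
      mul_mem' := by
        rintro _ _ ⟨s, M, hs, rfl⟩ ⟨t, N, ht, rfl⟩
        exact ⟨t * s, M * N, A4_mul h.trans hs ht, by rw [map_mul]⟩
      one_mem' := ⟨1, 1, A4_one x, by rw [map_one]⟩
      inv_mem' := by
        rintro _ ⟨s, M, hs, rfl⟩
        exact ⟨s⁻¹, M⁻¹, A4_inv hs, by rw [map_inv]⟩ }
  refine ⟨G, ?_, ?_, ?_⟩
  · rintro _ ⟨s, M, hs, rfl⟩
    exact ⟨M, rfl⟩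
  · rintro _ ⟨s, M, hs, rfl⟩ P hP
    exact (auto_branch h2 hg h s M hs P).mpr hP
  · intro hfin
    classical
    have hM : ∀ s : F ≃ₐ[k] F, ∃ M : GL (Fin 2) k, A4_rel x s M := by
      intro s
      obtain ⟨M, _, hM⟩ := auto_mob h2 hg h s
      exact ⟨M, hM⟩
    choose M hM using hM
    let φ : (F ≃ₐ[k] F) → G := fun s => ⟨mact (M s), s, M s, hM s, rfl⟩
    have hφ : ∀ s s', φ s = φ s' → s x = s' x := by
      intro s s' hss
      exact A4_eq h.trans (hM s) (hM s') (congrArg Subtype.val hss)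
    let rep : G → F := fun p => if hp : ∃ s, φ s = p then (hp.choose : F ≃ₐ[k] F) y else 0
    have hrep : ∀ s, s y = rep (φ s) ∨ s y = -rep (φ s) := by
      intro s
      have hex : ∃ t, φ t = φ s := ⟨s, rfl⟩
      have : rep (φ s) = (hex.choose : F ≃ₐ[k] F) y := by
        simp only [rep, dif_pos hex]
      rw [this]
      exact A4_sq h (hφ _ _ hex.choose_spec.symm)
    let ψ : (F ≃ₐ[k] F) → Bool × G := fun s => (decide (s y = rep (φ s)), φ s)
    have hψ : Function.Injective ψ := by
      intro s s' hss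
      have e2 : φ s = φ s' := congrArg Prod.snd hss
      have e1 : decide (s y = rep (φ s)) = decide (s' y = rep (φ s')) := congrArg Prod.fst hss
      have e3 : (s y = rep (φ s)) ↔ (s' y = rep (φ s')) := by
        simpa using e1
      apply A4_ext h (hφ _ _ e2)
      rw [e2] at e3
      have r1 := hrep s
      rw [e2] at r1
      have r2 := hrep s'
      by_cases hc : s y = rep (φ s')
      · rw [hc, e3.mp hc]
      · have hc' : ¬ s' y = rep (φ s') := fun hh => hc (e3.mpr hh)
        rw [r1.resolve_left hc, r2.resolve_left hc']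
    have : Finite (Bool × G) := inferInstance
    refine ⟨Finite.of_injective ψ hψ, ?_⟩
    have := Nat.card_le_card_of_injective ψ hψ
    rw [Nat.card_prod] at this
    simpa using this

end Pool.Agent.Helper28.HA
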