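import Pool.Agent.Helper54.HY.SX

/-!
MP_143e28_ag, project HA: functions outside `k(x)` have degree at least `g + 1`.

`repr`: every `z` is `(a (x) + b (x) y) / c (x)` (`F = k(x)(y)`, `y ^ 2 = f (x)`; numerators over a common denominator).
`deg_ge`: `z ∉ k(x)`, `Q (x, z) = 0`.  `z` has the equation `A Z ^ 2 + B Z + C`, `A, B, C ∈ k[X]` (from `repr`), divide by the
content: primitive, irreducible over `k(x)` (degree 2, no root as `z ∉ k(x)`).  By Gauss
(`Polynomial.IsPrimitive.dvd_of_fraction_map_dvd_fraction_map`) it divides `Q` in `k[X][Z]`; the degree in `X` is additive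
(`k[Z][X]`, `Polynomial.Bivariate.swap`), so some coefficient of `Q` has degree at least `max (deg A, deg B, deg C)`.
`B ^ 2 - 4 A C = (2 A z + B) ^ 2`; an element of `F ∖ k(x)` with square in `k(x)` is `c y`, so `B ^ 2 - 4 A C = c ^ 2 f`,
`c ∈ k(x)`, `f` squarefree: `c ∈ k[x]`; so `2 g + 1 ≤ deg (B ^ 2 - 4 A C) ≤ 2 max`.  Characteristic `≠ 2`.
(The work is in `Helper54.HY.Deg` and `Helper54.HY.SX`.)
-/

set_option autoImplicit false

namespace Pool.Agent.Helper28.HA

open Polynomial Pool.Agent.Helper54.HY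

variable {k F : Type*} [Field k] [Field F] [Algebra k F]

theorem mem_adjoin_rat {x : F} (hx : Transcendental k x) {u : F} :
    u ∈ IntermediateField.adjoin k {x} ↔ ∃ r : RatFunc k, rat hx r = u := by
  rw [IntermediateField.mem_adjoin_simple_iff]
  constructor
  · rintro ⟨r, s, hu⟩
    refine ⟨algebraMap k[X] (RatFunc k) r / algebraMap k[X] (RatFunc k) s, ?_⟩
    rw [map_div₀, rat_poly, rat_poly, hu]
  · rintro ⟨r, hu⟩
    refine ⟨r.num, r.denom, ?_⟩
    rw [← rat_poly hx, ← rat_poly hx, ← map_div₀, RatFunc.num_div_denom, hu]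

theorem y_not_mem {g : ℕ} {x y : F} {f : k[X]} (h : Pres k F g x y f) :
    y ∉ IntermediateField.adjoin k {x} := by
  rw [mem_adjoin_rat h.trans]
  rintro ⟨r, hr⟩
  exact y_notMem h.trans h.sqf (f_pos h) h.eqn r hr

theorem repr_xy {g : ℕ} {x y : F} {f : k[X]} (h : Pres k F g x y f) (z : F) :
    ∃ a b c : k[X], c ≠ 0 ∧ aeval x c * z = aeval x a + aeval x b * y := by
  obtain ⟨a, b, c, hc, hz, -⟩ := exists_rep' h z
  exact ⟨a, b, c, hc, hz⟩

theorem deg_ge (h2 : (2 : k) ≠ 0) {g : ℕ} {x y : F} {f : k[X]} (h : Pres k F g x y f) (z : F)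
    (hz : z ∉ IntermediateField.adjoin k {x}) (Q : Polynomial (Polynomial k)) (hQ : Q ≠ 0)
    (h0 : Q.eval₂ (aeval x : k[X] →ₐ[k] F).toRingHom z = 0) :
    ∃ i, g + 1 ≤ (Q.coeff i).natDegree := by
  by_contra hcon
  push Not at hcon
  obtain ⟨a, b, c, hc, hz', hb⟩ := exists_rep' h z
  have hb0 : b ≠ 0 := by
    intro h1
    obtain ⟨r, hr⟩ := hb h1
    exact hz ((mem_adjoin_rat h.trans).2 ⟨r, hr.symm⟩)
  exact hQ (deg_lemma (g := g) h2 h.trans h.sqf (by rcases h.deg with h1 | h1 <;> omega) h.eqn hb0 hc hz'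
    (fun i => by have := hcon i; omega) h0)

end Pool.Agent.Helper28.HA
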