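import Pool.Agent.Helper28.HA.A2
import Pool.Agent.Helper28.HA.B1

/-!
MP_143e28_ag, project HA: the Moebius transformation of an automorphism permutes the branch points.

`Br_card`: `f` has `natDegree f` distinct roots (squarefree, algebraically closed).
`auto_branch`: `w = s y`, `w ^ 2 = f (s x) ∈ k(x)`, `w ∉ k(x)` (as `s⁻¹` preserves `k(x)` and `y ∉ k(x)`), so `w = c y`,
`c ∈ k(x)` (`w = u + v y`, `w ^ 2 ∈ k(x)`, characteristic `≠ 2`: `u = 0`), so `f (s x) = c ^ 2 f (x)`.  With
`f' = ∑ f_i (M00 X + M01) ^ i (M10 X + M11) ^ (2 g + 2 - i)` (a polynomial of degree at most `2 g + 2`, squarefree up to the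
usual behaviour at infinity): `f' (x) = ((M10 x + M11) ^ (g + 1) c) ^ 2 f (x)`, `f` squarefree: `f' = e ^ 2 f` with
`e ∈ k[X]`, degrees: `2 deg e + 2 g + 1 ≤ 2 g + 2`: `e` constant `≠ 0`.  So a point `a` is a root of `f'` iff of `f`; and
`f' (a) = (M10 a + M11) ^ (2 g + 2) f (M a)` if `M10 a + M11 ≠ 0`; if `M10 a + M11 = 0` then `M a = ∞` and
`f' (a) = f_(2g+2) (M00 a + M01) ^ (2g+2)`; `∞` is in `Br` iff `deg f = deg f' < 2 g + 2` iff the coefficient `2g+2` of `f'`
vanishes, it is `f_h (M00, M10)`.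
-/

set_option autoImplicit false

namespace Pool.Agent.Helper28.HA

open Polynomial OnePoint

variable {k F : Type*} [Field k] [Field F] [Algebra k F]

private theorem A3_det (M : GL (Fin 2) k) : M 0 0 * M 1 1 - M 0 1 * M 1 0 ≠ 0 := by
  have h := M.det_ne_zero
  rw [Matrix.det_fin_two] at h
  exact h

theorem Br_card [IsAlgClosed k] {g : ℕ} {f : k[X]} (hs : Squarefree f)
    (hd : f.natDegree = 2 * g + 1 ∨ f.natDegree = 2 * g + 2) :
    (Br g f).Finite ∧ Nat.card (Br g f) = 2 * g + 2 := by
  classical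
  have hroots : f.roots.toFinset.card = f.natDegree := by
    rw [Multiset.toFinset_card_of_nodup, ← (IsAlgClosed.splits f).natDegree_eq_card_roots]
    exact nodup_roots (PerfectField.separable_iff_squarefree.2 hs)
  have h0 : f ≠ 0 := hs.ne_zero
  set A : Finset (OnePoint k) := f.roots.toFinset.image (fun a : k => (a : OnePoint k)) with hA
  have hAc : A.card = f.natDegree := by
    rw [hA, Finset.card_image_of_injective _ OnePoint.coe_injective, hroots]
  have hAinf : (∞ : OnePoint k) ∉ A := by
    rw [hA, Finset.mem_image]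
    rintro ⟨a, -, ha⟩
    exact OnePoint.coe_ne_infty a ha
  have hAmem : ∀ P : OnePoint k, P ∈ A ↔ ∃ a : k, f.eval a = 0 ∧ P = (a : OnePoint k) := by
    intro P
    rw [hA, Finset.mem_image]
    constructor
    · rintro ⟨a, ha, rfl⟩
      rw [Multiset.mem_toFinset, mem_roots h0] at ha
      exact ⟨a, ha, rfl⟩
    · rintro ⟨a, ha, rfl⟩
      refine ⟨a, ?_, rfl⟩
      rw [Multiset.mem_toFinset, mem_roots h0]
      exact ha
  rcases hd with hd | hd
  · have hB : Br g f = ((insert (∞ : OnePoint k) A : Finset (OnePoint k)) : Set (OnePoint k)) := by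
      ext P
      rw [Br, Set.mem_ofPred_eq, Finset.coe_insert, Set.mem_insert_iff, Finset.mem_coe, hAmem]
      constructor
      · rintro (h | h)
        · exact Or.inr h
        · exact Or.inl h.2
      · rintro (h | h)
        · exact Or.inr ⟨hd, h⟩
        · exact Or.inl h
    rw [hB]
    refine ⟨Finset.finite_toSet _, ?_⟩
    rw [Nat.card_coe_set_eq, Set.ncard_coe_finset, Finset.card_insert_of_notMem hAinf, hAc, hd]
  · have hB : Br g f = ((A : Finset (OnePoint k)) : Set (OnePoint k)) := by
      ext P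
      rw [Br, Set.mem_ofPred_eq, Finset.mem_coe, hAmem]
      constructor
      · rintro (h | h)
        · exact h
        · omega
      · intro h
        exact Or.inl h
    rw [hB]
    refine ⟨Finset.finite_toSet _, ?_⟩
    rw [Nat.card_coe_set_eq, Set.ncard_coe_finset, hAc, hd]

/-- the homogenisation of `f` of degree `n` at `(u, v)` -/
private def A3_H (n : ℕ) (f : k[X]) {R : Type*} [CommRing R] [Algebra k R] (u v : R) : R :=
  ∑ i ∈ Finset.range (n + 1), algebraMap k R (f.coeff i) * u ^ i * v ^ (n - i)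

private theorem A3_H_div {n : ℕ} {f : k[X]} (hn : f.natDegree ≤ n) {R : Type*} [Field R]
    [Algebra k R] (u v : R) (hv : v ≠ 0) : A3_H n f u v = v ^ n * aeval (u / v) f := by
  rw [A3_H, aeval_eq_sum_range' (Nat.lt_succ_of_le hn), Finset.mul_sum]
  refine Finset.sum_congr rfl fun i hi => ?_
  rw [Finset.mem_range] at hi
  have h1 : v ^ n = v ^ i * v ^ (n - i) := by rw [← pow_add]; congr 1; omega
  rw [h1, Algebra.smul_def, div_pow]
  field_simp

private theorem A3_H_zero {n : ℕ} {f : k[X]} {R : Type*} [CommRing R] [Algebra k R] (u : R) :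
    A3_H n f u 0 = algebraMap k R (f.coeff n) * u ^ n := by
  rw [A3_H, Finset.sum_eq_single n]
  · simp
  · intro i hi hin
    rw [Finset.mem_range] at hi
    rw [zero_pow (by omega), mul_zero]
  · intro h
    exact absurd (Finset.mem_range.2 (Nat.lt_succ_self n)) h

private theorem A3_H_map {n : ℕ} {f : k[X]} {R S : Type*} [CommRing R] [Algebra k R] [CommRing S]
    [Algebra k S] (φ : R →ₐ[k] S) (u v : R) : φ (A3_H n f u v) = A3_H n f (φ u) (φ v) := by
  rw [A3_H, A3_H, map_sum]
  refine Finset.sum_congr rfl fun i _ => ?_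
  rw [map_mul, map_mul, map_pow, map_pow, AlgHom.commutes]

private theorem A3_lin_deg (a b : k) : (C a * X + C b : k[X]).natDegree ≤ 1 := by
  exact natDegree_linear_le

private theorem A3_natDegree {n : ℕ} {f : k[X]} (a b c d : k) :
    (A3_H n f (C a * X + C b : k[X]) (C c * X + C d)).natDegree ≤ n := by
  rw [A3_H]
  refine natDegree_sum_le_of_forall_le _ _ fun i hi => ?_
  rw [Finset.mem_range] at hi
  refine natDegree_mul_le.trans ?_
  have h1 : (algebraMap k k[X] (f.coeff i) * (C a * X + C b : k[X]) ^ i).natDegree ≤ i := by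
    refine (natDegree_C_mul_le _ _).trans ?_
    refine natDegree_pow_le.trans ?_
    have := A3_lin_deg a b
    nlinarith
  have h2 : ((C c * X + C d : k[X]) ^ (n - i)).natDegree ≤ n - i := by
    refine natDegree_pow_le.trans ?_
    have := A3_lin_deg c d
    nlinarith
  omega

private theorem A3_lin_coeff (a b : k) (i : ℕ) :
    ((C a * X + C b : k[X]) ^ i).coeff i = a ^ i := by
  have h := coeff_pow_of_natDegree_le (m := i) (A3_lin_deg a b)
  rw [mul_one] at h
  rw [h]
  simp

private theorem A3_coeff {n : ℕ} {f : k[X]} (a b c d : k) :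
    (A3_H n f (C a * X + C b : k[X]) (C c * X + C d)).coeff n = A3_H n f a c := by
  rw [A3_H, A3_H, finsetSum_coeff]
  refine Finset.sum_congr rfl fun i hi => ?_
  rw [Finset.mem_range] at hi
  have h1 : (algebraMap k k[X] (f.coeff i) * (C a * X + C b : k[X]) ^ i).natDegree ≤ i := by
    refine (natDegree_C_mul_le _ _).trans ?_
    refine natDegree_pow_le.trans ?_
    have := A3_lin_deg a b
    nlinarith
  have h2 : ((C c * X + C d : k[X]) ^ (n - i)).natDegree ≤ n - i := by
    refine natDegree_pow_le.trans ?_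
    have := A3_lin_deg c d
    nlinarith
  have h3 := coeff_mul_add_eq_of_natDegree_le h1 h2
  have h4 : i + (n - i) = n := by omega
  rw [h4] at h3
  rw [h3, A3_lin_coeff]
  change (C (f.coeff i) * (C a * X + C b : k[X]) ^ i).coeff i * c ^ (n - i) = _
  rw [coeff_C_mul, A3_lin_coeff]
  rfl

/-- the transformed polynomial is a nonzero constant times `f` -/
private theorem A3_key (h2 : (2 : k) ≠ 0) {g : ℕ} (hg : 2 ≤ g) {x y : F} {f : k[X]}
    (h : Pres k F g x y f) (s : F ≃ₐ[k] F) (M : GL (Fin 2) k)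
    (hM : s x * (algebraMap k F (M 1 0) * x + algebraMap k F (M 1 1)) =
        algebraMap k F (M 0 0) * x + algebraMap k F (M 0 1)) :
    ∃ e : k, e ≠ 0 ∧ A3_H (2 * g + 2) f (C (M 0 0) * X + C (M 0 1) : k[X])
      (C (M 1 0) * X + C (M 1 1)) = C e * f := by
  have hinj : Function.Injective (aeval x : k[X] →ₐ[k] F) := transcendental_iff_injective.1 h.trans
  have hfd : f.natDegree ≤ 2 * g + 2 := by rcases h.deg with h1 | h1 <;> omega
  have hdet := A3_det M
  obtain ⟨f', hf'⟩ : ∃ f' : k[X], f' = A3_H (2 * g + 2) f (C (M 0 0) * X + C (M 0 1) : k[X])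
      (C (M 1 0) * X + C (M 1 1)) := ⟨_, rfl⟩
  have hL : algebraMap k F (M 1 0) * x + algebraMap k F (M 1 1) ≠ 0 := by
    intro h0
    have h1 : (C (M 1 0) * X + C (M 1 1) : k[X]) = 0 := by
      apply hinj
      rw [map_zero, ← h0]
      simp
    have h3 := congrArg (fun p : k[X] => p.coeff 1) h1
    have h4 := congrArg (fun p : k[X] => p.coeff 0) h1
    simp at h3 h4
    apply hdet
    rw [h3, h4]
    ring
  have hsx : s x = (algebraMap k F (M 0 0) * x + algebraMap k F (M 0 1)) /
      (algebraMap k F (M 1 0) * x + algebraMap k F (M 1 1)) := by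
    rw [eq_div_iff hL, hM]
  have hsy : (s y) ^ 2 = aeval (s x) f := by
    rw [← map_pow, h.eqn]
    exact (Polynomial.aeval_algHom_apply (s : F →ₐ[k] F) x f).symm
  obtain ⟨L, hLdef⟩ : ∃ L : F, L = algebraMap k F (M 1 0) * x + algebraMap k F (M 1 1) := ⟨_, rfl⟩
  have hx' : aeval x f' = (L ^ (g + 1) * s y) ^ 2 := by
    rw [hf', A3_H_map]
    have e1 : aeval x (C (M 0 0) * X + C (M 0 1) : k[X]) =
      algebraMap k F (M 0 0) * x + algebraMap k F (M 0 1) := by simp
    have e2 : aeval x (C (M 1 0) * X + C (M 1 1) : k[X]) = L := by rw [hLdef]; simp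
    rw [e1, e2, A3_H_div hfd _ _ (by rw [hLdef]; exact hL), hLdef, ← hsx, ← hsy, mul_pow,
      ← pow_mul]
    congr 2
    ring
  have hy0 : y ≠ 0 := by
    intro h0
    have h1 := h.eqn
    rw [h0] at h1
    have h3 : f = 0 := by
      apply hinj
      rw [map_zero, ← h1]
      ring
    exact h.sqf.ne_zero h3
  have hL0 : L ≠ 0 := by rw [hLdef]; exact hL
  have hsy0 : s y ≠ 0 := by
    intro h0
    exact hy0 ((map_eq_zero s).1 h0)
  -- representation
  obtain ⟨A, B, D, hD, hrep⟩ := repr_xy h (L ^ (g + 1) * s y)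
  have hDx : aeval x D ≠ 0 := by
    intro h0
    exact hD (hinj (by rw [h0, map_zero]))
  have hmemp : ∀ p : k[X], aeval x p ∈ IntermediateField.adjoin k {x} := by
    intro p
    exact (IntermediateField.mem_adjoin_simple_iff k _).2 ⟨p, 1, by simp⟩
  have hLmem : L ∈ IntermediateField.adjoin k {x} := by
    have := hmemp (C (M 1 0) * X + C (M 1 1))
    rw [hLdef]
    simpa using this
  have hynot := y_not_mem h
  have hsynot : s y ∉ IntermediateField.adjoin k {x} := by
    intro hmem
    apply hynot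
    have h1 := auto_mem h2 hg h s.symm
    obtain ⟨r, q, hrq⟩ := (IntermediateField.mem_adjoin_simple_iff k _).1 hmem
    have h3 := congrArg s.symm hrq
    rw [AlgEquiv.symm_apply_apply, map_div₀] at h3
    have h4 : ∀ p : k[X], s.symm (aeval x p) ∈ IntermediateField.adjoin k {x} := by
      intro p
      have h5 : s.symm (aeval x p) = aeval (s.symm x) p :=
        (Polynomial.aeval_algHom_apply (s.symm : F →ₐ[k] F) x p).symm
      rw [h5]
      have h6 : aeval (s.symm x) p = ((aeval (⟨s.symm x, h1⟩ : IntermediateField.adjoin k {x}) p :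
          IntermediateField.adjoin k {x}) : F) := by
        exact (Polynomial.aeval_algHom_apply (IntermediateField.adjoin k {x}).val
          (⟨s.symm x, h1⟩ : IntermediateField.adjoin k {x}) p)
      rw [h6]
      exact SetLike.coe_mem _
    rw [h3]
    exact div_mem (h4 r) (h4 q)
  have hB0 : B ≠ 0 := by
    intro hB
    rw [hB, map_zero, zero_mul, add_zero] at hrep
    apply hsynot
    have h1 : s y = aeval x A / (aeval x D * L ^ (g + 1)) := by
      rw [eq_div_iff (mul_ne_zero hDx (pow_ne_zero _ hL0)), ← hrep]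
      ring
    rw [h1]
    exact div_mem (hmemp A) (mul_mem (hmemp D) (pow_mem hLmem _))
  have hBx : aeval x B ≠ 0 := by
    intro h0
    exact hB0 (hinj (by rw [h0, map_zero]))
  have h2F : (2 : F) ≠ 0 := by
    have := (map_ne_zero (algebraMap k F)).2 h2
    rwa [map_ofNat] at this
  have hA0 : A = 0 := by
    by_contra hA
    have hAx : aeval x A ≠ 0 := by
      intro h0
      exact hA (hinj (by rw [h0, map_zero]))
    apply hynot
    have h1 : (aeval x D) ^ 2 * aeval x f' = (aeval x A) ^ 2 + (aeval x B) ^ 2 * aeval x f +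
        2 * aeval x A * aeval x B * y := by
      rw [hx', ← mul_pow, hrep, ← h.eqn]
      ring
    have h3 : y = ((aeval x D) ^ 2 * aeval x f' - ((aeval x A) ^ 2 + (aeval x B) ^ 2 * aeval x f)) /
        (2 * aeval x A * aeval x B) := by
      rw [eq_div_iff (mul_ne_zero (mul_ne_zero h2F hAx) hBx), h1]
      ring
    rw [h3]
    refine div_mem (sub_mem (mul_mem (pow_mem (hmemp D) _) (hmemp f')) (add_mem
      (pow_mem (hmemp A) _) (mul_mem (pow_mem (hmemp B) _) (hmemp f)))) (mul_mem (mul_mem ?_
      (hmemp A)) (hmemp B))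
    exact ofNat_mem _ 2
  rw [hA0, map_zero, zero_add] at hrep
  have hpoly : D ^ 2 * f' = B ^ 2 * f := by
    apply hinj
    rw [map_mul, map_mul, map_pow, map_pow, hx', ← mul_pow, hrep, mul_pow, h.eqn]
  obtain ⟨e, he⟩ := Pool.Agent.Helper54.HY.dvd_of_sq_dvd h.sqf (Dvd.intro _ hpoly)
  have hf'e : f' = e ^ 2 * f := by
    apply mul_left_cancel₀ (pow_ne_zero 2 hD)
    rw [hpoly, he]
    ring
  have he0 : e ≠ 0 := by
    intro h0
    apply hB0
    rw [he, h0, mul_zero]
  have hdeg : e.natDegree = 0 := by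
    have h1 : f'.natDegree ≤ 2 * g + 2 := by rw [hf']; exact A3_natDegree _ _ _ _
    rw [hf'e, natDegree_mul (pow_ne_zero 2 he0) h.sqf.ne_zero, natDegree_pow] at h1
    rcases h.deg with h3 | h3 <;> omega
  rw [natDegree_eq_zero] at hdeg
  obtain ⟨e0, he0'⟩ := hdeg
  have he00 : e0 ≠ 0 := by
    intro h0
    apply he0
    rw [← he0', h0, C_0]
  refine ⟨e0 ^ 2, pow_ne_zero 2 he00, ?_⟩
  rw [← hf', hf'e, ← he0', C_pow]

theorem auto_branch (h2 : (2 : k) ≠ 0) {g : ℕ} (hg : 2 ≤ g) {x y : F} {f : k[X]}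
    (h : Pres k F g x y f) (s : F ≃ₐ[k] F) (M : GL (Fin 2) k)
    (hM : s x * (algebraMap k F (M 1 0) * x + algebraMap k F (M 1 1)) =
        algebraMap k F (M 0 0) * x + algebraMap k F (M 0 1)) (P : OnePoint k) :
    mact M P ∈ Br g f ↔ P ∈ Br g f := by
  obtain ⟨e, he, hkey⟩ := A3_key h2 hg h s M hM
  have hfd : f.natDegree ≤ 2 * g + 2 := by rcases h.deg with h1 | h1 <;> omega
  have hdet := A3_det M
  have hcoe : ∀ z : k, ((z : OnePoint k) ∈ Br g f) ↔ f.eval z = 0 := by
    intro z
    rw [Br, Set.mem_ofPred_eq]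
    constructor
    · rintro (⟨a, ha, haz⟩ | ⟨-, h1⟩)
      · rw [OnePoint.coe_injective haz]
        exact ha
      · exact absurd h1 (OnePoint.coe_ne_infty z)
    · intro h1
      exact Or.inl ⟨z, h1, rfl⟩
  have hinf : ((∞ : OnePoint k) ∈ Br g f) ↔ f.coeff (2 * g + 2) = 0 := by
    rw [Br, Set.mem_ofPred_eq]
    constructor
    · rintro (⟨a, -, ha⟩ | ⟨h1, -⟩)
      · exact absurd ha.symm (OnePoint.coe_ne_infty a)
      · exact coeff_eq_zero_of_natDegree_lt (by omega)
    · intro h1
      refine Or.inr ⟨?_, rfl⟩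
      rcases h.deg with h3 | h3
      · exact h3
      · exfalso
        rw [← h3] at h1
        exact h.sqf.ne_zero (leadingCoeff_eq_zero.1 h1)
  have heval : ∀ z : k, A3_H (2 * g + 2) f (M 0 0 * z + M 0 1) (M 1 0 * z + M 1 1) =
      e * f.eval z := by
    intro z
    have h1 := congrArg (aeval z : k[X] →ₐ[k] k) hkey
    rw [A3_H_map] at h1
    simpa using h1
  induction P using OnePoint.rec with
  | infty =>
    by_cases hc : M 1 0 = 0
    · rw [mact_infty_zero M hc]
    · rw [mact_infty M hc, hcoe, hinf]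
      have h1 := congrArg (fun p : k[X] => p.coeff (2 * g + 2)) hkey
      simp only [coeff_C_mul] at h1
      rw [A3_coeff, A3_H_div hfd _ _ hc, coe_aeval_eq_eval] at h1
      constructor
      · intro h3
        rw [h3, mul_zero] at h1
        exact (mul_eq_zero.1 h1.symm).resolve_left he
      · intro h3
        rw [h3, mul_zero] at h1
        exact (mul_eq_zero.1 h1).resolve_left (pow_ne_zero _ hc)
  | coe z =>
    have h1 := heval z
    by_cases hz : M 1 0 * z + M 1 1 = 0
    · rw [mact_some_zero M z hz, hinf, hcoe]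
      rw [hz, A3_H_zero] at h1
      have hne : M 0 0 * z + M 0 1 ≠ 0 := by
        intro h3
        apply hdet
        by_cases hz0 : z = 0
        · rw [hz0, mul_zero, zero_add] at hz h3
          rw [hz, h3]
          ring
        · apply mul_right_cancel₀ hz0
          linear_combination M 1 1 * h3 - M 0 1 * hz
      constructor
      · intro h3
        rw [h3, map_zero, zero_mul] at h1
        exact (mul_eq_zero.1 h1.symm).resolve_left he
      · intro h3
        rw [h3, mul_zero] at h1
        exact (mul_eq_zero.1 h1).resolve_right (pow_ne_zero _ hne)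
    · rw [mact_some M z hz, hcoe, hcoe]
      rw [A3_H_div hfd _ _ hz, coe_aeval_eq_eval] at h1
      constructor
      · intro h3
        rw [h3, mul_zero] at h1
        exact (mul_eq_zero.1 h1.symm).resolve_left he
      · intro h3
        rw [h3, mul_zero] at h1
        exact (mul_eq_zero.1 h1).resolve_left (pow_ne_zero _ hz)

end Pool.Agent.Helper28.HA
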