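import Pool.Agent.Helper28.HA.B1

/-!
MP_143e28_ag, project HA: the stabilizer of a point in a finite group of Moebius transformations.

Conjugate by `t` with `t P = ∞` (`mob_trans`): `stab` becomes a group `H` of maps `z ↦ a z + b`, `uni` the subgroup `V` of the
translations (`a = 1`; if `a ≠ 1` the map has the second fixed point `b / (1 - a)`).  `V` is normal in `H`, `H / V` embeds in
`kˣ` by `a`.  `card_uni`: all elements of `V` have order `1` or `p` (`p b = 0`), so `V` is a `p`-group.
`card_stab`: the group `A` of the values `a` acts freely on `V ∖ {1}` (conjugation of the translation by `v` is the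
translation by `a v`; `a v = v` only if `a = 1`), `#H = #V #A`, `#A ∣ #V - 1`.
-/

set_option autoImplicit false

namespace Pool.Agent.Helper28.HA

open Polynomial OnePoint

variable {k : Type*} [Field k]

/-- finite value of a point -/
private noncomputable def B2_cv (x : OnePoint k) : k := x.elim 0 id

private theorem B2_cv_coe (z : k) : B2_cv (z : OnePoint k) = z := rfl

/-- after conjugation with `t` the permutation `s` is `z ↦ a z + b` -/
private def B2_aff (t s : Equiv.Perm (OnePoint k)) (a b : k) : Prop :=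
  a ≠ 0 ∧ (t * s * t⁻¹) ∞ = ∞ ∧ ∀ z : k, (t * s * t⁻¹) (z : OnePoint k) = ((a * z + b : k) : OnePoint k)

private theorem B2_aff_one (t : Equiv.Perm (OnePoint k)) : B2_aff t 1 (1 : k) 0 := by
  refine ⟨one_ne_zero, by simp, fun z => by simp⟩

private theorem B2_aff_mul {t s s' : Equiv.Perm (OnePoint k)} {a b a' b' : k} (h : B2_aff t s a b)
    (h' : B2_aff t s' a' b') : B2_aff t (s * s') (a * a') (a * b' + b) := by
  have e : t * (s * s') * t⁻¹ = (t * s * t⁻¹) * (t * s' * t⁻¹) := by group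
  refine ⟨mul_ne_zero h.1 h'.1, ?_, fun z => ?_⟩
  · rw [e, Equiv.Perm.mul_apply, h'.2.1, h.2.1]
  · rw [e, Equiv.Perm.mul_apply, h'.2.2 z, h.2.2]
    congr 1
    ring

private theorem B2_aff_inj {t s s' : Equiv.Perm (OnePoint k)} {a b : k} (h : B2_aff t s a b)
    (h' : B2_aff t s' a b) : s = s' := by
  have e : t * s * t⁻¹ = t * s' * t⁻¹ := by
    ext x
    induction x using OnePoint.rec with
    | infty => rw [h.2.1, h'.2.1]
    | coe z => rw [h.2.2, h'.2.2]
  exact mul_left_cancel (mul_right_cancel e)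

/-- the data of a point -/
private structure B2_D (G : Subgroup (Equiv.Perm (OnePoint k))) (P : OnePoint k) where
  t : Equiv.Perm (OnePoint k)
  S : Subgroup (Equiv.Perm (OnePoint k))
  hS : ∀ s, s ∈ S ↔ s ∈ G ∧ s P = P
  ht : t P = ∞
  phi : S →* k
  beta : S → k
  spec : ∀ s : S, B2_aff t s.1 (phi s) (beta s)

private theorem B2_exists (G : Subgroup (Equiv.Perm (OnePoint k))) (hG : MobGroup G) (P : OnePoint k) :
    Nonempty (B2_D G P) := by
  obtain ⟨t, ht, htP⟩ := mob_trans P
  let S : Subgroup (Equiv.Perm (OnePoint k)) :=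
    { carrier := {s | s ∈ G ∧ s P = P}
      one_mem' := ⟨G.one_mem, rfl⟩
      mul_mem' := by
        rintro a b ⟨ha, ha'⟩ ⟨hb, hb'⟩
        refine ⟨G.mul_mem ha hb, ?_⟩
        rw [Equiv.Perm.mul_apply, hb', ha']
      inv_mem' := by
        rintro a ⟨ha, ha'⟩
        refine ⟨G.inv_mem ha, ?_⟩
        rw [Equiv.Perm.inv_eq_iff_eq]
        exact ha'.symm }
  have key : ∀ s : S, B2_aff t s.1 (B2_cv ((t * s.1 * t⁻¹) ((1 : k) : OnePoint k)) -
      B2_cv ((t * s.1 * t⁻¹) ((0 : k) : OnePoint k))) (B2_cv ((t * s.1 * t⁻¹) ((0 : k) : OnePoint k))) := by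
    rintro ⟨s, hsG, hsP⟩
    have h1 : IsMob (t * s * t⁻¹) := (ht.mul (hG s hsG)).mul ht.inv
    have h2 : (t * s * t⁻¹) ∞ = ∞ := by
      rw [Equiv.Perm.mul_apply, Equiv.Perm.mul_apply]
      have : t⁻¹ ∞ = P := by rw [Equiv.Perm.inv_eq_iff_eq]; exact htP.symm
      rw [this, hsP, htP]
    obtain ⟨a, b, ha, hab⟩ := mob_affine h1 h2
    have e0 : B2_cv ((t * s * t⁻¹) ((0 : k) : OnePoint k)) = b := by
      rw [hab, B2_cv_coe]; ring
    have e1 : B2_cv ((t * s * t⁻¹) ((1 : k) : OnePoint k)) = a + b := by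
      rw [hab, B2_cv_coe]; ring
    show B2_aff t s _ _
    rw [e0, e1, add_sub_cancel_right]
    exact ⟨ha, h2, hab⟩
  have uniq : ∀ (s : Equiv.Perm (OnePoint k)) (a b a' b' : k), B2_aff t s a b → B2_aff t s a' b' →
      a = a' ∧ b = b' := by
    intro s a b a' b' h h'
    have e0 := (h.2.2 0).symm.trans (h'.2.2 0)
    have e1 := (h.2.2 1).symm.trans (h'.2.2 1)
    rw [OnePoint.coe_eq_coe] at e0 e1
    have hb : b = b' := by simpa using e0
    refine ⟨?_, hb⟩
    rw [hb] at e1
    simpa using e1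
  refine ⟨⟨t, S, fun s => Iff.rfl, htP,
    { toFun := fun s => B2_cv ((t * s.1 * t⁻¹) ((1 : k) : OnePoint k)) -
        B2_cv ((t * s.1 * t⁻¹) ((0 : k) : OnePoint k))
      map_one' := ?_
      map_mul' := ?_ }, fun s => B2_cv ((t * s.1 * t⁻¹) ((0 : k) : OnePoint k)), key⟩⟩
  · exact (uniq 1 _ _ _ _ (key 1) (B2_aff_one t)).1
  · intro x y
    exact (uniq (x.1 * y.1) _ _ _ _ (key (x * y)) (B2_aff_mul (key x) (key y))).1

namespace B2_D

variable {G : Subgroup (Equiv.Perm (OnePoint k))} {P : OnePoint k} (d : B2_D G P)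

private noncomputable def f : d.S →* kˣ := d.phi.toHomUnits

private theorem f_coe (s : d.S) : ((d.f s : kˣ) : k) = d.phi s := rfl

private theorem uniq {s : Equiv.Perm (OnePoint k)} {a b a' b' : k} (h : B2_aff d.t s a b)
    (h' : B2_aff d.t s a' b') : a = a' ∧ b = b' := by
  have e0 := (h.2.2 0).symm.trans (h'.2.2 0)
  have e1 := (h.2.2 1).symm.trans (h'.2.2 1)
  rw [OnePoint.coe_eq_coe] at e0 e1
  have hb : b = b' := by simpa using e0
  refine ⟨?_, hb⟩
  rw [hb] at e1
  simpa using e1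

private theorem mem_ker {s : d.S} : s ∈ d.f.ker ↔ d.phi s = 1 := by
  rw [MonoidHom.mem_ker, Units.ext_iff, f_coe, Units.val_one]

private theorem inj {s s' : d.S} (h : d.phi s = d.phi s') (h' : d.beta s = d.beta s') : s = s' := by
  have h1 := d.spec s
  rw [h, h'] at h1
  exact Subtype.ext (B2_aff_inj h1 (d.spec s'))

/-- the kernel is `uni` -/
private theorem mem_ker_iff (s : d.S) : s ∈ d.f.ker ↔ s.1 ∈ uni G P := by
  have hs := (d.hS s.1).mp s.2
  have hsp := d.spec s
  rw [mem_ker]
  constructor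
  · intro h
    rw [h] at hsp
    refine ⟨hs.1, ?_⟩
    by_cases hb : d.beta s = 0
    · left
      rw [hb] at hsp
      exact B2_aff_inj hsp (B2_aff_one d.t)
    · right
      intro Q
      constructor
      · intro hQ
        have h1 : (d.t * s.1 * d.t⁻¹) (d.t Q) = d.t Q := by
          rw [Equiv.Perm.mul_apply, Equiv.Perm.mul_apply, ← Equiv.Perm.mul_apply d.t⁻¹ d.t,
            inv_mul_cancel, Equiv.Perm.one_apply, hQ]
        by_contra hne
        have h2 : d.t Q ≠ ∞ := by
          intro h3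
          apply hne
          apply d.t.injective
          rw [h3, d.ht]
        obtain ⟨z, hz⟩ := OnePoint.ne_infty_iff_exists.mp h2
        rw [← hz, hsp.2.2, OnePoint.coe_eq_coe] at h1
        apply hb
        linear_combination h1
      · rintro rfl
        exact hs.2
  · rintro ⟨_, h | h⟩
    · have : s = 1 := Subtype.ext h
      rw [this, map_one]
    · by_contra hne
      have hsub : (1 : k) - d.phi s ≠ 0 := sub_ne_zero.mpr (Ne.symm hne)
      set z : k := d.beta s / (1 - d.phi s) with hz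
      have h1 : (d.t * s.1 * d.t⁻¹) (z : OnePoint k) = (z : OnePoint k) := by
        rw [hsp.2.2, OnePoint.coe_eq_coe, hz]
        field_simp
        ring
      have h2 : s.1 (d.t⁻¹ (z : OnePoint k)) = d.t⁻¹ (z : OnePoint k) := by
        rw [Equiv.Perm.mul_apply, Equiv.Perm.mul_apply] at h1
        rw [Equiv.Perm.eq_inv_iff_eq]
        exact h1
      have h3 := (h _).mp h2
      rw [Equiv.Perm.inv_eq_iff_eq, d.ht] at h3
      exact OnePoint.coe_ne_infty z h3

private theorem card_uni_eq : Nat.card (uni G P) = Nat.card d.f.ker := by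
  symm
  refine Nat.card_congr ⟨fun v => ⟨v.1.1, (d.mem_ker_iff v.1).mp v.2⟩, fun s => ?_, ?_, ?_⟩
  · have h1 : s.1 ∈ d.S := by
      rw [d.hS]
      refine ⟨s.2.1, ?_⟩
      rcases s.2.2 with h | h
      · rw [h]; rfl
      · exact (h P).mpr rfl
    exact ⟨⟨s.1, h1⟩, (d.mem_ker_iff ⟨s.1, h1⟩).mpr s.2⟩
  · intro v
    rfl
  · intro s
    rfl

private theorem card_stab_eq : Nat.card (stab G P) = Nat.card d.S := by
  symm
  exact Nat.card_congr ⟨fun v => ⟨v.1, (d.hS v.1).mp v.2⟩, fun s => ⟨s.1, (d.hS s.1).mpr s.2⟩,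
    fun _ => rfl, fun _ => rfl⟩

private theorem fin [Finite G] : Finite d.S :=
  Finite.of_injective (fun s : d.S => (⟨s.1, ((d.hS s.1).mp s.2).1⟩ : G)) (by
    intro a b h
    exact Subtype.ext (congrArg (fun x : G => x.1) h))

/-- translations -/
private theorem ker_spec (v : d.S) (hv : v ∈ d.f.ker) : B2_aff d.t v.1 1 (d.beta v) := by
  have := d.spec v
  rwa [(d.mem_ker).mp hv] at this

private theorem ker_pow (v : d.S) (hv : v ∈ d.f.ker) (j : ℕ) : B2_aff d.t (v.1 ^ j) 1 (j * d.beta v) := by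
  induction j with
  | zero => simpa using B2_aff_one d.t
  | succ j ih =>
    have := B2_aff_mul ih (d.ker_spec v hv)
    rw [← pow_succ] at this
    convert this using 1
    · ring
    · push_cast; ring

end B2_D

/-- `uni G P` is a `p`-group -/
theorem card_uni (p : ℕ) [Fact p.Prime] [CharP k p] (G : Subgroup (Equiv.Perm (OnePoint k)))
    [Finite G] (hG : MobGroup G) (P : OnePoint k) : ∃ j : ℕ, Nat.card (uni G P) = p ^ j := by
  obtain ⟨d⟩ := B2_exists G hG P
  haveI := d.fin
  rw [d.card_uni_eq, ← IsPGroup.iff_card]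
  rintro ⟨v, hv⟩
  refine ⟨1, ?_⟩
  rw [pow_one]
  apply Subtype.ext
  apply Subtype.ext
  have h1 := d.ker_pow v hv p
  rw [CharP.cast_eq_zero, zero_mul] at h1
  exact B2_aff_inj h1 (B2_aff_one d.t)

theorem card_stab (G : Subgroup (Equiv.Perm (OnePoint k)))
    [Finite G] (hG : MobGroup G) (P : OnePoint k) :
    ∃ m : ℕ, Nat.card (stab G P) = Nat.card (uni G P) * m ∧ m ∣ Nat.card (uni G P) - 1 := by
  obtain ⟨d⟩ := B2_exists G hG P
  haveI := d.fin
  refine ⟨Nat.card d.f.range, ?_, ?_⟩
  · rw [d.card_stab_eq, d.card_uni_eq, ← Subgroup.index_ker, Subgroup.card_mul_index]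
  rw [d.card_uni_eq]
  set Bs : Set k := Set.range (fun v : d.f.ker => d.beta v.1) with hBs
  have hinj : Function.Injective (fun v : d.f.ker => d.beta v.1) := by
    intro v w h
    apply Subtype.ext
    exact d.inj (((d.mem_ker).mp v.2).trans ((d.mem_ker).mp w.2).symm) h
  have hfin : Bs.Finite := Set.finite_range _
  have hcard : Nat.card (Bs \ {0} : Set k) = Nat.card d.f.ker - 1 := by
    have h0 : (0 : k) ∈ Bs := by
      refine ⟨1, ?_⟩
      exact (d.uniq (d.ker_spec _ (1 : d.f.ker).2) (B2_aff_one d.t)).2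
    rw [Nat.card_coe_set_eq, Set.ncard_sdiff_singleton_of_mem h0, ← Nat.card_coe_set_eq, hBs,
      Nat.card_range_of_injective hinj]
  rw [← hcard]
  -- the action
  have hact : ∀ (a : d.f.range) (x : (Bs \ {0} : Set k)), ((a : kˣ) : k) * x.1 ∈ Bs \ {0} := by
    rintro ⟨_, ⟨s, rfl⟩⟩ ⟨x, ⟨⟨v, rfl⟩, hx⟩⟩
    refine ⟨?_, ?_⟩
    · have hn : s * v.1 * s⁻¹ ∈ d.f.ker := (MonoidHom.normal_ker d.f).conj_mem v.1 v.2 s
      refine ⟨⟨s * v.1 * s⁻¹, hn⟩, ?_⟩
      have h1 := d.ker_spec _ hn
      have h2 := B2_aff_mul (d.spec s) (d.ker_spec v.1 v.2)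
      have h3 := B2_aff_mul h1 (d.spec s)
      have e : (s * v.1 * s⁻¹ : d.S).1 * s.1 = s.1 * v.1.1 := by
        rw [← Subgroup.coe_mul, ← Subgroup.coe_mul]
        congr 1
        group
      rw [e] at h3
      have h4 := (d.uniq h3 h2).2
      show d.beta (s * v.1 * s⁻¹) = d.phi s * d.beta v.1
      linear_combination h4
    · intro h
      exact mul_ne_zero (Units.ne_zero _) hx h
  letI : MulAction d.f.range (Bs \ {0} : Set k) :=
    { smul := fun a x => ⟨((a : kˣ) : k) * x.1, hact a x⟩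
      one_smul := by
        intro x
        apply Subtype.ext
        show (((1 : d.f.range) : kˣ) : k) * x.1 = x.1
        simp
      mul_smul := by
        intro a b x
        apply Subtype.ext
        show ((((a * b : d.f.range)) : kˣ) : k) * x.1 = ((a : kˣ) : k) * (((b : kˣ) : k) * x.1)
        push_cast
        ring }
  have hst : ∀ x : (Bs \ {0} : Set k), MulAction.stabilizer d.f.range x = ⊥ := by
    intro x
    rw [eq_bot_iff]
    intro a ha
    rw [Subgroup.mem_bot]
    have h1 : ((a : kˣ) : k) * x.1 = x.1 := congrArg Subtype.val ha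
    have hx : x.1 ≠ 0 := x.2.2
    have h2 : ((a : kˣ) : k) = 1 := by
      have : (((a : kˣ) : k) - 1) * x.1 = 0 := by linear_combination h1
      rcases mul_eq_zero.mp this with h | h
      · exact sub_eq_zero.mp h
      · exact absurd h hx
    apply Subtype.ext
    exact Units.ext h2
  have e := Nat.card_congr (MulAction.selfEquivOrbitsQuotientProd hst)
  rw [Nat.card_prod] at e
  exact ⟨_, by rw [e]; ring⟩

end Pool.Agent.Helper28.HA
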