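import Pool.Agent.Helper28.HA.B1

/-!
MP_143e28_ag, project HA: orbits.

`card_orb_mul`: orbit-stabilizer theorem.  `uni_dvd`: `uni G P` acts freely on `orb G P ∖ {P}` (an element `≠ 1` of `uni G P`
fixes only `P`), so its order divides `#orb - 1`.  (`uni G P` is a group: conjugate to the translations by `mob_trans`,
`mob_affine`; or: a nontrivial product of two elements of `uni G P` fixes `P`; if it had a second fixed point it would be,
after conjugation to `P = ∞`, a translation with a fixed point.)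
-/

set_option autoImplicit false
set_option linter.unusedSectionVars false

namespace Pool.Agent.Helper28.HA

open Polynomial OnePoint

variable {k : Type*} [Field k]

theorem B3_inv_apply {α : Type*} (u : Equiv.Perm α) (x : α) : u⁻¹ (u x) = x :=
  u.symm_apply_apply x

theorem B3_apply_inv {α : Type*} (u : Equiv.Perm α) (x : α) : u (u⁻¹ x) = x :=
  u.apply_symm_apply x

theorem B3_orb_eq (G : Subgroup (Equiv.Perm (OnePoint k))) (P : OnePoint k) :
    orb G P = MulAction.orbit G P := by
  ext Q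
  constructor
  · rintro ⟨s, hs, rfl⟩
    exact ⟨⟨s, hs⟩, rfl⟩
  · rintro ⟨⟨s, hs⟩, rfl⟩
    exact ⟨s, hs, rfl⟩

/-- the stabilizer as a set and as a subgroup -/
def B3_stabEquiv (G : Subgroup (Equiv.Perm (OnePoint k))) (P : OnePoint k) :
    stab G P ≃ MulAction.stabilizer G P where
  toFun s := ⟨⟨s.1, s.2.1⟩, s.2.2⟩
  invFun s := ⟨s.1.1, s.1.2, s.2⟩
  left_inv _ := rfl
  right_inv _ := rfl

theorem card_orb_mul (G : Subgroup (Equiv.Perm (OnePoint k))) [Finite G] (P : OnePoint k) :
    (orb G P).Finite ∧ Nat.card (orb G P) * Nat.card (stab G P) = Nat.card G := by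
  constructor
  · rw [B3_orb_eq]
    exact Set.finite_range _
  · rw [Nat.card_congr (B3_stabEquiv G P), B3_orb_eq, ← Nat.card_prod,
      Nat.card_congr (MulAction.orbitProdStabilizerEquivGroup G P)]

theorem B3_key {G : Subgroup (Equiv.Perm (OnePoint k))} (hG : MobGroup G) {P : OnePoint k}
    {u : Equiv.Perm (OnePoint k)} (hu : IsMob u) (huP : u P = ∞) {s : Equiv.Perm (OnePoint k)}
    (hs : s ∈ uni G P) :
    ∃ b : k, ∀ z : k, (u * s * u⁻¹) (z : OnePoint k) = ((z + b : k) : OnePoint k) := by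
  obtain ⟨hsG, rfl | hfix⟩ := hs
  · exact ⟨0, fun z => by simp⟩
  · have hsP : s P = P := (hfix P).2 rfl
    have huinv : u⁻¹ ∞ = P := by rw [← huP, B3_inv_apply]
    have hinf : (u * s * u⁻¹) ∞ = ∞ := by
      rw [Equiv.Perm.mul_apply, Equiv.Perm.mul_apply, huinv, hsP, huP]
    obtain ⟨a, b, ha, hab⟩ := mob_affine ((hu.mul (hG s hsG)).mul hu.inv) hinf
    have ha1 : a = 1 := by
      by_contra hne
      have h1 : (1 : k) - a ≠ 0 := sub_ne_zero.2 (Ne.symm hne)
      have h2 := hab (b / (1 - a))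
      have h3 : a * (b / (1 - a)) + b = b / (1 - a) := by
        field_simp
        ring
      rw [h3] at h2
      have h4 : s (u⁻¹ ((b / (1 - a) : k) : OnePoint k)) = u⁻¹ ((b / (1 - a) : k) : OnePoint k) := by
        rw [Equiv.Perm.mul_apply, Equiv.Perm.mul_apply] at h2
        exact u.injective (by rw [h2, B3_apply_inv])
      have h5 := (hfix _).1 h4
      have h6 : ((b / (1 - a) : k) : OnePoint k) = ∞ := by
        rw [← huP, ← h5, B3_apply_inv]
      exact OnePoint.coe_ne_infty _ h6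
    refine ⟨b, fun z => ?_⟩
    rw [hab z, ha1, one_mul]

theorem B3_fix {G : Subgroup (Equiv.Perm (OnePoint k))} {P : OnePoint k}
    {s : Equiv.Perm (OnePoint k)} (hs : s ∈ uni G P) : s P = P := by
  obtain ⟨_, rfl | h⟩ := hs
  · rfl
  · exact (h P).2 rfl

theorem B3_mul {G : Subgroup (Equiv.Perm (OnePoint k))} (hG : MobGroup G) {P : OnePoint k}
    {s t : Equiv.Perm (OnePoint k)} (hs : s ∈ uni G P) (ht : t ∈ uni G P) : s * t ∈ uni G P := by
  refine ⟨G.mul_mem hs.1 ht.1, ?_⟩
  by_cases h1 : s * t = 1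
  · exact Or.inl h1
  · refine Or.inr fun Q => ⟨fun hQ => ?_, ?_⟩
    · by_contra hQP
      apply h1
      obtain ⟨u, hu, huP⟩ := mob_trans P
      obtain ⟨b, hb⟩ := B3_key hG hu huP hs
      obtain ⟨c, hc⟩ := B3_key hG hu huP ht
      have e1 : u * (s * t) * u⁻¹ = (u * s * u⁻¹) * (u * t * u⁻¹) := by group
      have e2 : ∀ z : k, (u * (s * t) * u⁻¹) (z : OnePoint k) = ((z + c + b : k) : OnePoint k) := by
        intro z
        rw [e1, Equiv.Perm.mul_apply, hc, hb]
      have hR : u Q ≠ ∞ := by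
        rw [← huP]
        exact fun h => hQP (u.injective h)
      obtain ⟨z, hz⟩ := OnePoint.ne_infty_iff_exists.1 hR
      have h2 : (u * (s * t) * u⁻¹) (z : OnePoint k) = z := by
        rw [hz, Equiv.Perm.mul_apply, Equiv.Perm.mul_apply, B3_inv_apply, hQ]
      rw [e2 z, OnePoint.coe_eq_coe] at h2
      have h3 : c + b = 0 := by
        rw [add_assoc] at h2
        exact add_eq_left.1 h2
      have h4 : u * (s * t) * u⁻¹ = 1 := by
        ext R
        induction R using OnePoint.rec with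
        | infty =>
          rw [Equiv.Perm.mul_apply, Equiv.Perm.mul_apply, Equiv.Perm.one_apply, ← huP,
            B3_inv_apply, Equiv.Perm.mul_apply, B3_fix ht, B3_fix hs]
        | coe w => rw [e2, add_assoc, h3, add_zero, Equiv.Perm.one_apply]
      have h5 : s * t = u⁻¹ * (u * (s * t) * u⁻¹) * u := by group
      rw [h5, h4]
      group
    · rintro rfl
      rw [Equiv.Perm.mul_apply, B3_fix ht, B3_fix hs]

/-- `uni G P` as a group -/
def B3_uni {G : Subgroup (Equiv.Perm (OnePoint k))} (hG : MobGroup G) (P : OnePoint k) :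
    Subgroup (Equiv.Perm (OnePoint k)) where
  carrier := uni G P
  mul_mem' := B3_mul hG
  one_mem' := ⟨G.one_mem, Or.inl rfl⟩
  inv_mem' := by
    rintro s ⟨hsG, hs⟩
    refine ⟨G.inv_mem hsG, hs.imp (fun h => by rw [h, inv_one]) fun h Q => ?_⟩
    rw [Equiv.Perm.inv_eq_iff_eq, eq_comm]
    exact h Q

/-- the punctured orbit -/
def B3_sub {G : Subgroup (Equiv.Perm (OnePoint k))} (hG : MobGroup G) (P : OnePoint k) :
    SubMulAction (B3_uni hG P) (OnePoint k) where
  carrier := orb G P \ {P}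
  smul_mem' := by
    rintro ⟨s, hs⟩ Q ⟨⟨t, ht, htQ⟩, hQ⟩
    refine ⟨⟨s * t, G.mul_mem hs.1 ht, ?_⟩, ?_⟩
    · rw [Equiv.Perm.mul_apply, htQ]
      rfl
    · intro h
      apply hQ
      have h1 : s Q = P := h
      have h2 : s P = P := B3_fix hs
      exact s.injective (h1.trans h2.symm)

theorem uni_dvd (G : Subgroup (Equiv.Perm (OnePoint k))) [Finite G] (hG : MobGroup G)
    (P : OnePoint k) : Nat.card (uni G P) ∣ Nat.card (orb G P) - 1 := by
  have hfree : ∀ Q : B3_sub hG P, MulAction.stabilizer (B3_uni hG P) Q = ⊥ := by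
    rintro ⟨Q, hQ⟩
    rw [eq_bot_iff]
    rintro ⟨s, hs⟩ h
    have h1 : s Q = Q := congrArg Subtype.val (MulAction.mem_stabilizer_iff.1 h)
    rw [Subgroup.mem_bot]
    obtain ⟨_, h2 | h2⟩ := hs
    · exact Subtype.ext h2
    · exact absurd ((h2 Q).1 h1) hQ.2
  have h1 : Nat.card (B3_sub hG P) = Nat.card (orb G P) - 1 := by
    have h2 : P ∈ orb G P := ⟨1, G.one_mem, rfl⟩
    have h3 := Set.ncard_sdiff_singleton_of_mem h2
    exact h3
  rw [← h1, Nat.card_congr (MulAction.selfEquivOrbitsQuotientProd hfree), Nat.card_prod]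
  exact Dvd.intro_left _ rfl

end Pool.Agent.Helper28.HA
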