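import Pool.Agent.Helper28.HA.Defs

/-!
MP_143e28_ag, project HA: existence of the hyperelliptic function fields, and automorphisms from solutions of the equation.

`exists_pres`: `F = AdjoinRoot (X ^ 2 - C f)` over `RatFunc k` (or the corresponding quotient); irreducible as `f` is not a square
in `RatFunc k` (squarefree of positive degree).  `x` = image of `RatFunc.X`, transcendental; `y` = root.
`auto_of`: the `k`-homomorphism `F → F`, `x ↦ x'`, `y ↦ y'`: `k(x) → F` as `x'` is transcendental (if `x'` were algebraic over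
`k`, then `y'` too, but `k(x', y') = F`), extended to `F = k(x)(y)` by `y' ^ 2 = f (x')`; it is onto as its image contains
`x'`, `y'`.
-/

set_option autoImplicit false

namespace Pool.Agent.Helper28.HA

open Polynomial

/-- the equation over `k(X)` -/
noncomputable abbrev C1_pol {k : Type*} [Field k] (f : k[X]) : (RatFunc k)[X] :=
  X ^ 2 - C (algebraMap k[X] (RatFunc k) f)

theorem C1_irr {k : Type*} [Field k] {f : k[X]} (hs : Squarefree f) (hd : 0 < f.natDegree) :
    Irreducible (C1_pol f) := by
  refine X_pow_sub_C_irreducible_of_prime Nat.prime_two ?_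
  intro b hb
  have hint : IsIntegral k[X] b := by
    refine ⟨X ^ 2 - C f, monic_X_pow_sub_C f two_ne_zero, ?_⟩
    simp [hb]
  obtain ⟨c, hc⟩ := IsIntegrallyClosed.isIntegral_iff.1 hint
  rw [← hc, ← map_pow] at hb
  have h1 : c ^ 2 = f := RatFunc.algebraMap_injective k hb
  have h2 : IsUnit c := hs c ⟨1, by rw [mul_one, ← pow_two, h1]⟩
  have h3 : f.natDegree = 0 := by
    rw [← h1, natDegree_pow, natDegree_eq_zero_of_isUnit h2, mul_zero]
  omega

theorem C1_trans {k : Type*} [Field k] {f : k[X]} (hI : Irreducible (C1_pol f)) :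
    Transcendental k (AdjoinRoot.of (C1_pol f) RatFunc.X) := by
  have : Fact (Irreducible (C1_pol f)) := ⟨hI⟩
  have h : Transcendental k (algebraMap (RatFunc k) (AdjoinRoot (C1_pol f)) RatFunc.X) :=
    (transcendental_algebraMap_iff (algebraMap (RatFunc k) (AdjoinRoot (C1_pol f))).injective).2
      RatFunc.transcendental_X
  exact h

theorem C1_eqn {k : Type*} [Field k] (f : k[X]) :
    (AdjoinRoot.root (C1_pol f)) ^ 2 = aeval (AdjoinRoot.of (C1_pol f) RatFunc.X) f := by
  have h1 : AdjoinRoot.mk (C1_pol f) (C1_pol f) = 0 := AdjoinRoot.mk_self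
  have h2 : AdjoinRoot.mk (C1_pol f) (C1_pol f)
      = (AdjoinRoot.root (C1_pol f)) ^ 2 - AdjoinRoot.of (C1_pol f) (algebraMap k[X] (RatFunc k) f) := by
    rw [show AdjoinRoot.mk (C1_pol f) (C1_pol f)
      = AdjoinRoot.mk (C1_pol f) (X ^ 2 - C (algebraMap k[X] (RatFunc k) f)) from rfl,
      map_sub, map_pow, AdjoinRoot.mk_X, AdjoinRoot.mk_C]
  rw [h1] at h2
  have h3 : (AdjoinRoot.root (C1_pol f)) ^ 2
      = AdjoinRoot.of (C1_pol f) (algebraMap k[X] (RatFunc k) f) := (sub_eq_zero.1 h2.symm)
  rw [h3]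
  have h4 : algebraMap k[X] (RatFunc k) f = aeval RatFunc.X f := by
    rw [← RatFunc.algebraMap_X, aeval_algebraMap_apply, aeval_X_left_apply]
  rw [h4]
  exact (aeval_algebraMap_apply (AdjoinRoot (C1_pol f)) (RatFunc.X : RatFunc k) f).symm

theorem C1_gen {k : Type*} [Field k] {f : k[X]} (hI : Fact (Irreducible (C1_pol f))) :
    IntermediateField.adjoin k {AdjoinRoot.of (C1_pol f) RatFunc.X, AdjoinRoot.root (C1_pol f)} = ⊤ := by
  set E := IntermediateField.adjoin k
    {AdjoinRoot.of (C1_pol f) RatFunc.X, AdjoinRoot.root (C1_pol f)} with hE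
  have hx : AdjoinRoot.of (C1_pol f) RatFunc.X ∈ E :=
    IntermediateField.subset_adjoin _ _ (by simp)
  have hy : AdjoinRoot.root (C1_pol f) ∈ E := IntermediateField.subset_adjoin _ _ (by simp)
  have h1 : ∀ c : RatFunc k, AdjoinRoot.of (C1_pol f) c ∈ E := by
    intro c
    have hc : c ∈ IntermediateField.adjoin k {(RatFunc.X : RatFunc k)} := by
      rw [RatFunc.adjoin_X]; trivial
    have hle : IntermediateField.adjoin k {(RatFunc.X : RatFunc k)}
        ≤ E.comap (IsScalarTower.toAlgHom k (RatFunc k) (AdjoinRoot (C1_pol f))) := by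
      rw [IntermediateField.adjoin_le_iff]
      rintro _ rfl
      exact hx
    exact hle hc
  refine eq_top_iff.2 ?_
  rintro z -
  induction z using AdjoinRoot.induction_on with
  | ih p =>
    induction p using Polynomial.induction_on' with
    | add p q hp hq => rw [map_add]; exact add_mem hp hq
    | monomial n c =>
      rw [← C_mul_X_pow_eq_monomial, map_mul, map_pow, AdjoinRoot.mk_C, AdjoinRoot.mk_X]
      exact mul_mem (h1 c) (pow_mem hy n)

theorem exists_pres.{u} (k : Type u) [Field k] (g : ℕ) (f : k[X]) (hs : Squarefree f)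
    (hd : f.natDegree = 2 * g + 1 ∨ f.natDegree = 2 * g + 2) :
    ∃ (F : Type u) (_ : Field F) (_ : Algebra k F) (x y : F), Pres k F g x y f := by
  have hI := C1_irr hs (by omega)
  have : Fact (Irreducible (C1_pol f)) := ⟨hI⟩
  exact ⟨AdjoinRoot (C1_pol f), inferInstance, inferInstance,
    AdjoinRoot.of (C1_pol f) RatFunc.X, AdjoinRoot.root (C1_pol f),
    ⟨C1_trans hI, C1_gen ⟨hI⟩, hs, hd, C1_eqn f⟩⟩

/-- the function field of `y ^ 2 = f (x)` is unique -/
theorem C1_equiv {k F : Type*} [Field k] [Field F] [Algebra k F] {f : k[X]}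
    (hI : Fact (Irreducible (C1_pol f))) {x y : F} (ht : Transcendental k x)
    (he : y ^ 2 = aeval x f) (hgen : IntermediateField.adjoin k {x, y} = ⊤) :
    ∃ e : AdjoinRoot (C1_pol f) ≃ₐ[k] F, e (AdjoinRoot.of (C1_pol f) RatFunc.X) = x ∧
      e (AdjoinRoot.root (C1_pol f)) = y := by
  set i : RatFunc k →ₐ[k] F :=
    (IntermediateField.val _).comp (RatFunc.algEquivOfTranscendental x ht).toAlgHom with hi
  have hiX : i RatFunc.X = x := by
    change ((RatFunc.algEquivOfTranscendental x ht RatFunc.X : IntermediateField.adjoin k {x}) : F) = x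
    rw [RatFunc.algEquivOfTranscendental_X]
  have hif : i (algebraMap k[X] (RatFunc k) f) = aeval x f := by
    have h4 : algebraMap k[X] (RatFunc k) f = aeval RatFunc.X f := by
      rw [← RatFunc.algebraMap_X, aeval_algebraMap_apply, aeval_X_left_apply]
    rw [h4, ← aeval_algHom_apply, hiX]
  have hroot : (C1_pol f).eval₂ (i : RatFunc k →+* F) y = 0 := by
    rw [C1_pol, eval₂_sub, eval₂_pow, eval₂_X, eval₂_C, he]
    change _ - i (algebraMap k[X] (RatFunc k) f) = 0
    rw [hif, sub_self]
  set φ : AdjoinRoot (C1_pol f) →ₐ[k] F := AdjoinRoot.liftAlgHom (C1_pol f) i y hroot with hφ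
  have h1 : φ (AdjoinRoot.of (C1_pol f) RatFunc.X) = x := by
    rw [hφ, AdjoinRoot.liftAlgHom_of, hiX]
  have h2 : φ (AdjoinRoot.root (C1_pol f)) = y := by rw [hφ, AdjoinRoot.liftAlgHom_root]
  have hsurj : Function.Surjective φ := by
    intro z
    have hz : z ∈ IntermediateField.adjoin k {x, y} := by rw [hgen]; trivial
    have hle : IntermediateField.adjoin k {x, y} ≤ φ.fieldRange := by
      rw [IntermediateField.adjoin_le_iff]
      rintro w (rfl | rfl)
      · exact ⟨_, h1⟩
      · exact ⟨_, h2⟩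
    exact hle hz
  have hbij : Function.Bijective φ := ⟨φ.toRingHom.injective, hsurj⟩
  exact ⟨AlgEquiv.ofBijective φ hbij, h1, h2⟩

theorem auto_of {k F : Type*} [Field k] [Field F] [Algebra k F] {g : ℕ} {x y : F} {f : k[X]}
    (h : Pres k F g x y f) (x' y' : F) (he : y' ^ 2 = aeval x' f)
    (hgen : IntermediateField.adjoin k {x', y'} = ⊤) : ∃ s : F ≃ₐ[k] F, s x = x' ∧ s y = y' := by
  have hI : Fact (Irreducible (C1_pol f)) := ⟨C1_irr h.sqf (by have := h.deg; omega)⟩
  have ht : Transcendental k x' := by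
    intro hx'
    have hy' : IsAlgebraic k y' := by
      have h1 : IsAlgebraic k (y' ^ 2) := by
        rw [he]
        have h0 : ∀ p : k[X], IsIntegral k (aeval x' p) := by
          intro p
          induction p using Polynomial.induction_on' with
          | add p q hp hq => rw [map_add]; exact hp.add hq
          | monomial n c =>
            rw [aeval_monomial]
            exact isIntegral_algebraMap.mul (hx'.isIntegral.pow n)
        exact isAlgebraic_iff_isIntegral.2 (h0 f)
      exact h1.of_pow (by norm_num)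
    have h2 : Algebra.IsAlgebraic k (IntermediateField.adjoin k {x', y'}) :=
      IntermediateField.isAlgebraic_adjoin (by
        rintro w (rfl | rfl)
        · exact hx'.isIntegral
        · exact hy'.isIntegral)
    rw [hgen] at h2
    have h3 : IsAlgebraic k (⟨x, trivial⟩ : (⊤ : IntermediateField k F)) := h2.isAlgebraic _
    exact h.trans ((isAlgebraic_algebraMap_iff (algebraMap (⊤ : IntermediateField k F) F).injective).2 h3)
  obtain ⟨e1, hx1, hy1⟩ := C1_equiv hI h.trans h.eqn h.gen
  obtain ⟨e2, hx2, hy2⟩ := C1_equiv hI ht he hgen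
  refine ⟨e1.symm.trans e2, ?_, ?_⟩
  · rw [AlgEquiv.trans_apply, ← hx1, AlgEquiv.symm_apply_apply, hx2]
  · rw [AlgEquiv.trans_apply, ← hy1, AlgEquiv.symm_apply_apply, hy2]

end Pool.Agent.Helper28.HA
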