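import Pool.Agent.Helper28.HA.C1

/-!
MP_143e28_ag, project HA: the curve `y ^ 2 = x ^ (2 g + 1) - x` has at least `8 g` automorphisms (`p ∤ 2 g`).

For every `z` with `z ^ (2 g) = 1` (there are `2 g`) choose `w` with `w ^ 2 = z`, and `e = 1, -1`:
`(x, y) ↦ (z x, e w y)` (`(z x) ^ (2g+1) - z x = z (x ^ (2g+1) - x)`) and, with `i ^ 2 = -1`,
`(x, y) ↦ (z / x, e i w y / x ^ (g + 1))`: `(z / x) ^ (2g+1) - z / x = z (1 - x ^ (2 g)) / x ^ (2g+1)
= - z (x ^ (2g+1) - x) / x ^ (2g+2)`.  `auto_of` gives automorphisms; they are distinct.
-/

set_option autoImplicit false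

namespace Pool.Agent.Helper28.HA

open Polynomial

theorem sqf_two {k : Type*} [Field k] (g : ℕ) (hg : 0 < g) (hn : ((2 * g : ℕ) : k) ≠ 0) :
    Squarefree (X ^ (2 * g + 1) - X : k[X]) := by
  have h1 : (X ^ (2 * g + 1) - X : k[X]) = X * (X ^ (2 * g) - 1) := by ring
  rw [h1]
  refine (Polynomial.Separable.mul separable_X (X_pow_sub_one_separable_iff.2 hn) ?_).squarefree
  refine ⟨X ^ (2 * g - 1), -1, ?_⟩
  have h2 : (X : k[X]) ^ (2 * g - 1) * X = X ^ (2 * g) := by
    rw [← pow_succ]
    congr 1
    omega
  rw [h2]
  ring

theorem many_two {k F : Type*} [Field k] [IsAlgClosed k] [Field F] [Algebra k F] {g : ℕ}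
    (hg : 0 < g) (h0 : ((2 * g : ℕ) : k) ≠ 0) {x y : F}
    (h : Pres k F g x y (X ^ (2 * g + 1) - X : k[X]))
    [Finite (F ≃ₐ[k] F)] : 8 * g ≤ Nat.card (F ≃ₐ[k] F) := by
  classical
  set n := 2 * g with hn
  have hx0 : x ≠ 0 := by
    rintro rfl
    exact h.trans isAlgebraic_zero
  have h2k : (2 : k) ≠ 0 := by
    intro e
    apply h0
    rw [hn]
    push_cast
    rw [e]
    ring
  have h2 : (2 : F) ≠ 0 := by
    intro e
    apply h2k
    apply (algebraMap k F).injective
    rw [map_ofNat, map_zero]
    exact e
  have heq : y ^ 2 = x ^ (n + 1) - x := by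
    have := h.eqn
    simpa using this
  -- `x` is not algebraic
  have hxalg : ∀ (a : k) (m : ℕ), m ≠ 0 → x ^ m ≠ algebraMap k F a := by
    intro a m hm e
    apply h.trans
    refine ⟨X ^ m - C a, ?_, ?_⟩
    · exact (monic_X_pow_sub_C a hm).ne_zero
    · simp [e]
  have hy0 : y ≠ 0 := by
    intro e
    rw [e, zero_pow two_ne_zero] at heq
    apply hxalg 1 n (by omega)
    rw [map_one]
    apply mul_right_cancel₀ hx0
    linear_combination -heq
  obtain ⟨i, hi⟩ := IsAlgClosed.exists_pow_nat_eq (-1 : k) (n := 2) (by norm_num)
  have hi' : (algebraMap k F i) ^ 2 = -1 := by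
    rw [← map_pow, hi, map_neg, map_one]
  have hi0 : algebraMap k F i ≠ 0 := by
    intro e
    rw [e, zero_pow two_ne_zero] at hi'
    exact one_ne_zero (neg_eq_zero.1 hi'.symm)
  haveI : NeZero (n : k) := ⟨h0⟩
  haveI : NeZero n := ⟨by omega⟩
  let sg : Bool → F := fun b => if b then 1 else -1
  have hsg2 : ∀ b, sg b ^ 2 = 1 := by
    intro b
    cases b <;> simp [sg]
  have hsg0 : ∀ b, sg b ≠ 0 := by
    intro b
    cases b <;> simp [sg]
  have hsginj : ∀ b b', sg b = sg b' → b = b' := by
    intro b b' e
    cases b <;> cases b'
    · rfl
    · simp only [sg] at e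
      exfalso
      apply h2
      simp at e
      linear_combination -e
    · simp only [sg] at e
      exfalso
      apply h2
      simp at e
      linear_combination e
    · rfl
  let zz : rootsOfUnity n k → F := fun z => algebraMap k F (z.1 : k)
  have hz : ∀ z, zz z ^ n = 1 := by
    intro z
    have h1 := (mem_rootsOfUnity' n z.1).1 z.2
    show (algebraMap k F (z.1 : k)) ^ n = 1
    rw [← map_pow, h1, map_one]
  have hz0 : ∀ z, zz z ≠ 0 := by
    intro z e
    have := hz z
    rw [e, zero_pow (by omega)] at this
    exact zero_ne_one this
  have hzinj : Function.Injective zz := by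
    intro z z' e
    apply Subtype.ext
    apply Units.ext
    exact (algebraMap k F).injective e
  have hwex : ∀ z : rootsOfUnity n k, ∃ w : k, w ^ 2 = (z.1 : k) := fun z =>
    IsAlgClosed.exists_pow_nat_eq (z.1 : k) (n := 2) (by norm_num)
  choose ww hww using hwex
  have hw2 : ∀ z, (algebraMap k F (ww z)) ^ 2 = zz z := by
    intro z
    rw [← map_pow, hww]
  have hw0 : ∀ z, algebraMap k F (ww z) ≠ 0 := by
    intro z e
    have := hw2 z
    rw [e, zero_pow two_ne_zero] at this
    exact hz0 z this.symm
  have hz1 : ∀ z, zz z ^ (n + 1) = zz z := by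
    intro z
    rw [pow_succ, hz, one_mul]
  -- the images
  let X' : rootsOfUnity n k × Bool × Bool → F := fun t =>
    if t.2.2 then zz t.1 * x else zz t.1 / x
  let Y' : rootsOfUnity n k × Bool × Bool → F := fun t =>
    if t.2.2 then sg t.2.1 * algebraMap k F (ww t.1) * y
    else sg t.2.1 * algebraMap k F i * algebraMap k F (ww t.1) * y / x ^ (g + 1)
  have hauto : ∀ t, ∃ s : F ≃ₐ[k] F, s x = X' t ∧ s y = Y' t := by
    rintro ⟨z, e, b⟩
    have htop : ∀ (S : IntermediateField k F), x ∈ S → y ∈ S → S = ⊤ := by
      intro S hx hy
      rw [eq_top_iff, ← h.gen, IntermediateField.adjoin_le_iff]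
      rintro w (rfl | rfl)
      · exact hx
      · exact hy
    have halg : ∀ (S : IntermediateField k F) (a : k), algebraMap k F a ∈ S := fun S a =>
      S.algebraMap_mem a
    have hsgm : ∀ (S : IntermediateField k F) (b : Bool), sg b ∈ S := by
      intro S b
      cases b
      · simp only [sg]
        simpa using S.neg_mem S.one_mem
      · simp only [sg]
        simpa using S.one_mem
    cases b
    · refine auto_of h _ _ ?_ ?_
      · simp only [X', Y', map_sub, map_pow, aeval_X, map_one]
        simp only [Bool.false_eq_true, if_false]
        rw [div_pow, div_pow, mul_pow, mul_pow, mul_pow, hsg2, hi', hw2, hz1, heq, ← pow_mul,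
          show (g + 1) * 2 = n + 2 by omega]
        field_simp
        ring
      · apply htop
        · have hX : zz z / x ∈ IntermediateField.adjoin k {X' (z, e, false), Y' (z, e, false)} := by
            apply IntermediateField.subset_adjoin
            left
            simp [X']
          have h3 := IntermediateField.div_mem _ (halg _ (z.1 : k)) hX
          have h4 : algebraMap k F (z.1 : k) / (zz z / x) = x := by
            show zz z / (zz z / x) = x
            field_simp [hz0 z]
          rw [h4] at h3
          exact h3
        · have hX : zz z / x ∈ IntermediateField.adjoin k {X' (z, e, false), Y' (z, e, false)} := by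
            apply IntermediateField.subset_adjoin
            left
            simp [X']
          have h3 := IntermediateField.div_mem _ (halg _ (z.1 : k)) hX
          have h4 : algebraMap k F (z.1 : k) / (zz z / x) = x := by
            show zz z / (zz z / x) = x
            field_simp [hz0 z]
          rw [h4] at h3
          have hY : sg e * algebraMap k F i * algebraMap k F (ww z) * y / x ^ (g + 1) ∈
              IntermediateField.adjoin k {X' (z, e, false), Y' (z, e, false)} := by
            apply IntermediateField.subset_adjoin
            right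
            simp [Y']
          have h5 := IntermediateField.div_mem _
            (IntermediateField.mul_mem _ hY (pow_mem h3 (g + 1)))
            (IntermediateField.mul_mem _ (IntermediateField.mul_mem _ (hsgm _ e) (halg _ i))
              (halg _ (ww z)))
          have h6 : sg e * algebraMap k F i * algebraMap k F (ww z) * y / x ^ (g + 1) *
              x ^ (g + 1) / (sg e * algebraMap k F i * algebraMap k F (ww z)) = y := by
            have := hsg0 e
            have := hw0 z
            field_simp
          rw [h6] at h5
          exact h5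
    · refine auto_of h _ _ ?_ ?_
      · simp only [X', Y', map_sub, map_pow, aeval_X, map_one]
        simp only [if_true]
        rw [mul_pow, mul_pow, mul_pow, hsg2, hw2, hz1, heq]
        ring
      · apply htop
        · have hX : zz z * x ∈ IntermediateField.adjoin k {X' (z, e, true), Y' (z, e, true)} := by
            apply IntermediateField.subset_adjoin
            left
            simp [X']
          have h3 := IntermediateField.div_mem _ hX (halg _ (z.1 : k))
          have h4 : zz z * x / algebraMap k F (z.1 : k) = x := by
            show zz z * x / zz z = x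
            field_simp [hz0 z]
          rw [h4] at h3
          exact h3
        · have hY : sg e * algebraMap k F (ww z) * y ∈
              IntermediateField.adjoin k {X' (z, e, true), Y' (z, e, true)} := by
            apply IntermediateField.subset_adjoin
            right
            simp [Y']
          have h5 := IntermediateField.div_mem _ hY
            (IntermediateField.mul_mem _ (hsgm _ e) (halg _ (ww z)))
          have h6 : sg e * algebraMap k F (ww z) * y / (sg e * algebraMap k F (ww z)) = y := by
            have := hsg0 e
            have := hw0 z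
            field_simp
          rw [h6] at h5
          exact h5
  choose s hs using hauto
  have hinj : Function.Injective s := by
    rintro ⟨z, e, b⟩ ⟨z', e', b'⟩ hss
    have h1 : X' (z, e, b) = X' (z', e', b') := by rw [← (hs _).1, ← (hs _).1, hss]
    have h3 : Y' (z, e, b) = Y' (z', e', b') := by rw [← (hs _).2, ← (hs _).2, hss]
    cases b <;> cases b'
    · simp only [X', Bool.false_eq_true, if_false] at h1
      simp only [Y', Bool.false_eq_true, if_false] at h3
      have h5 : z = z' := hzinj (by
        have := congrArg (· * x) h1
        simpa [div_mul_cancel₀ _ hx0] using this)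
      subst h5
      have h6 : e = e' := hsginj _ _ (by
        have h7 : sg e * (algebraMap k F i * algebraMap k F (ww z) * y / x ^ (g + 1)) =
            sg e' * (algebraMap k F i * algebraMap k F (ww z) * y / x ^ (g + 1)) := by
          rw [← mul_div_assoc, ← mul_div_assoc, ← mul_assoc, ← mul_assoc, ← mul_assoc, ← mul_assoc]
          exact h3
        refine mul_right_cancel₀ ?_ h7
        exact div_ne_zero (mul_ne_zero (mul_ne_zero hi0 (hw0 z)) hy0) (pow_ne_zero _ hx0))
      rw [h6]
    · exfalso
      simp only [X', Bool.false_eq_true, if_false, if_true] at h1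
      apply hxalg ((z.1 : k) / (z'.1 : k)) 2 two_ne_zero
      rw [map_div₀]
      show x ^ 2 = zz z / zz z'
      rw [eq_div_iff (hz0 z')]
      rw [div_eq_iff hx0] at h1
      linear_combination -h1
    · exfalso
      simp only [X', Bool.false_eq_true, if_false, if_true] at h1
      apply hxalg ((z'.1 : k) / (z.1 : k)) 2 two_ne_zero
      rw [map_div₀]
      show x ^ 2 = zz z' / zz z
      rw [eq_div_iff (hz0 z)]
      rw [eq_div_iff hx0] at h1
      linear_combination h1
    · simp only [X', if_true] at h1
      simp only [Y', if_true] at h3
      have h5 : z = z' := hzinj (mul_right_cancel₀ hx0 h1)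
      subst h5
      have h6 : e = e' := hsginj _ _ (mul_right_cancel₀ (hw0 z) (mul_right_cancel₀ hy0 h3))
      rw [h6]
  have hcard := Nat.card_le_card_of_injective s hinj
  rw [Nat.card_prod, Nat.card_prod, HasEnoughRootsOfUnity.natCard_rootsOfUnity] at hcard
  rw [Nat.card_eq_fintype_card (α := Bool), Fintype.card_bool] at hcard
  omega

end Pool.Agent.Helper28.HA
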