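import Pool.Agent.Helper28.HA.A4
import Pool.Agent.Helper28.HA.B6
import Pool.Agent.Helper28.HA.C2
import Pool.Agent.Helper28.HA.C3

/-!
MP_143e28_ag, project HA: assembly.

`auto_finite`: `auto_group`, `Br_card`, `mob_finite` (`2 g + 2 ≥ 3`), so `#Aut ≤ 2 (2 g + 2) ^ 3`.
`upper`: `auto_group`, `Br_card`, `stab_bound` with `N = 2 g + 2`: `2 * (2 * (2 g + 2 - 2)) = 8 g` (`p` odd: `p ∣ g + 1` iff
`p ∣ 2 g + 2`, and so on).  `lower`: `exists_pres`, `many_one`, `many_two` (odd `p` does not divide both `g` and `g + 1`), the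
set in `muHyp` is bounded by `auto_finite`.  `main_poly`: a polynomial with both properties is `8 X`: it has values `≤ 8 g`
for infinitely many `g` (`p ∣∣ g + 1`, `p ^ 2 < g + 1`) and values `≥ 8 g` for infinitely many `g` ... then equal:
`M - 8 X` is `≤ 0` at infinitely many `g`, `≥ 0` at infinitely many `g` (where `M (g) = muHyp g ≥ 8 g`), so its leading
coefficient argument: a nonzero polynomial has constant sign at large `g`; and if `M - 8 X < 0` at all large `g` then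
`M (g) = muHyp g ≥ 8 g` fails; if `> 0` then `M (g) ≤ muHyp g = 8 g` fails for the special `g`.
-/

set_option autoImplicit false

namespace Pool.Agent.Helper28.HA

open Polynomial

private theorem D1_two_ne (p : ℕ) [Fact p.Prime] (hp : p ≠ 2) (k : Type*) [Field k] [CharP k p] :
    (2 : k) ≠ 0 := by
  intro h
  have h1 : ((2 : ℕ) : k) = 0 := by exact_mod_cast h
  rw [CharP.cast_eq_zero_iff k p] at h1
  exact hp ((Nat.prime_dvd_prime_iff_eq Fact.out Nat.prime_two).mp h1)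

private theorem D1_cast_ne (p : ℕ) [Fact p.Prime] (hp : p ≠ 2) (k : Type*) [Field k] [CharP k p]
    (n : ℕ) (h : ¬ p ∣ n) : ((2 * n : ℕ) : k) ≠ 0 := by
  intro h1
  rw [CharP.cast_eq_zero_iff k p, Nat.Prime.dvd_mul Fact.out] at h1
  rcases h1 with h1 | h1
  · exact hp ((Nat.prime_dvd_prime_iff_eq Fact.out Nat.prime_two).mp h1)
  · exact h h1

theorem auto_finite.{u} {k F : Type u} [Field k] [IsAlgClosed k] (h2 : (2 : k) ≠ 0) [Field F]
    [Algebra k F] {g : ℕ} (hg : 2 ≤ g) (h : IsHyperelliptic k F g) :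
    Finite (F ≃ₐ[k] F) ∧ Nat.card (F ≃ₐ[k] F) ≤ 2 * (2 * g + 2) ^ 3 := by
  obtain ⟨x, y, f, hP⟩ := h
  obtain ⟨G, hG, hGB, hfin⟩ := auto_group h2 hg hP
  obtain ⟨hB1, hB2⟩ := Br_card hP.sqf hP.deg
  obtain ⟨hG1, hG2⟩ := mob_finite G hG (Br g f) hB1 (by rw [hB2]; omega) hGB
  obtain ⟨ha, hb⟩ := hfin hG1
  refine ⟨ha, hb.trans ?_⟩
  rw [hB2] at hG2
  exact Nat.mul_le_mul_left 2 hG2

theorem upper.{u} (p : ℕ) [Fact p.Prime] (hp : p ≠ 2) {k F : Type u} [Field k] [IsAlgClosed k]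
    [CharP k p] [Field F] [Algebra k F] {g : ℕ} (h1 : p ∣ g + 1) (h2 : ¬ p ^ 2 ∣ g + 1)
    (h3 : p ^ 2 < g + 1) (h : IsHyperelliptic k F g) : Nat.card (F ≃ₐ[k] F) ≤ 8 * g := by
  have hpp : p.Prime := Fact.out
  have hp2 : 2 ≤ p := hpp.two_le
  have hg : 2 ≤ g := by nlinarith
  have h20 : (2 : k) ≠ 0 := D1_two_ne p hp k
  obtain ⟨x, y, f, hP⟩ := h
  obtain ⟨G, hG, hGB, hfin⟩ := auto_group h20 hg hP
  obtain ⟨hB1, hB2⟩ := Br_card hP.sqf hP.deg
  obtain ⟨hG1, -⟩ := mob_finite G hG (Br g f) hB1 (by rw [hB2]; omega) hGB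
  obtain ⟨-, hb⟩ := hfin hG1
  have hN : 2 * g + 2 = 2 * (g + 1) := by ring
  have hd1 : p ∣ Nat.card (Br g f) := by
    rw [hB2, hN]
    exact Dvd.dvd.mul_left h1 2
  have hcop : Nat.Coprime (p ^ 2) 2 := by
    refine Nat.Coprime.pow_left 2 ?_
    exact (Nat.coprime_primes hpp Nat.prime_two).mpr hp
  have hd2 : ¬ p ^ 2 ∣ Nat.card (Br g f) := by
    rw [hB2, hN]
    intro hd
    exact h2 (hcop.dvd_of_dvd_mul_left hd)
  have hd3 : 2 * p ^ 2 < Nat.card (Br g f) := by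
    rw [hB2, hN]
    omega
  have hfinal := stab_bound p hp G hG (Br g f) hB1 hGB hd1 hd2 hd3
  rw [hB2] at hfinal
  omega

private theorem D1_le_mu.{u} {k : Type u} [Field k] [IsAlgClosed k] (h2 : (2 : k) ≠ 0) {g : ℕ}
    (hg : 2 ≤ g) {F : Type u} [Field F] [Algebra k F] (h : IsHyperelliptic k F g) {n : ℕ}
    (hn : n ≤ Nat.card (F ≃ₐ[k] F)) : n ≤ muHyp k g := by
  refine hn.trans ?_
  unfold muHyp
  refine le_csSup ?_ ?_
  · refine ⟨2 * (2 * g + 2) ^ 3, ?_⟩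
    rintro m ⟨F', i1, i2, hF', rfl⟩
    exact (auto_finite h2 hg hF').2
  · exact ⟨F, inferInstance, inferInstance, h, rfl⟩

theorem lower'.{u} (p : ℕ) [Fact p.Prime] (hp : p ≠ 2) (k : Type u) [Field k] [IsAlgClosed k]
    [CharP k p] {g : ℕ} (hg : 2 ≤ g) (h : ¬ p ∣ g + 1) : 8 * (g + 1) ≤ muHyp k g := by
  have h20 : (2 : k) ≠ 0 := D1_two_ne p hp k
  have h0 : ((2 * g + 2 : ℕ) : k) ≠ 0 := D1_cast_ne p hp k (g + 1) h
  have hdeg : (X ^ (2 * g + 2) - 1 : k[X]).natDegree = 2 * g + 2 := by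
    have := natDegree_X_pow_sub_C (R := k) (n := 2 * g + 2) (r := (1 : k))
    rwa [C_1] at this
  obtain ⟨F, _, _, x, y, hP⟩ := exists_pres k g (X ^ (2 * g + 2) - 1 : k[X])
    (sqf_one (2 * g + 2) h0) (Or.inr hdeg)
  have hH : IsHyperelliptic k F g := ⟨x, y, _, hP⟩
  have := (auto_finite h20 hg hH).1
  exact D1_le_mu h20 hg hH (many_one h0 hP)

theorem lower.{u} (p : ℕ) [Fact p.Prime] (hp : p ≠ 2) (k : Type u) [Field k] [IsAlgClosed k]
    [CharP k p] {g : ℕ} (hg : 2 ≤ g) : 8 * g ≤ muHyp k g := by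
  by_cases h : p ∣ g + 1
  · have h20 : (2 : k) ≠ 0 := D1_two_ne p hp k
    have hg' : ¬ p ∣ g := by
      intro h'
      have h1 : p ∣ 1 := (Nat.dvd_add_right h').mp h
      exact (Fact.out : p.Prime).one_lt.ne' (Nat.dvd_one.mp h1)
    have h0 : ((2 * g : ℕ) : k) ≠ 0 := D1_cast_ne p hp k g hg'
    have hdeg : (X ^ (2 * g + 1) - X : k[X]).natDegree = 2 * g + 1 := by
      rw [natDegree_sub_eq_left_of_natDegree_lt]
      · exact natDegree_X_pow _
      · rw [natDegree_X_pow, natDegree_X]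
        omega
    obtain ⟨F, _, _, x, y, hP⟩ := exists_pres k g (X ^ (2 * g + 1) - X : k[X])
      (sqf_two g (by omega) h0) (Or.inl hdeg)
    have hH : IsHyperelliptic k F g := ⟨x, y, _, hP⟩
    have := (auto_finite h20 hg hH).1
    exact D1_le_mu h20 hg hH (many_two (by omega) h0 hP)
  · exact (Nat.mul_le_mul_left 8 (Nat.le_succ g)).trans (lower' p hp k hg h)

theorem exact.{u} (p : ℕ) [Fact p.Prime] (hp : p ≠ 2) (k : Type u) [Field k] [IsAlgClosed k]
    [CharP k p] {g : ℕ} (h1 : p ∣ g + 1) (h2 : ¬ p ^ 2 ∣ g + 1) (h3 : p ^ 2 < g + 1) :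
    muHyp k g = 8 * g := by
  have hp2 : 2 ≤ p := (Fact.out : p.Prime).two_le
  have hg : 2 ≤ g := by nlinarith
  refine le_antisymm ?_ (lower p hp k hg)
  unfold muHyp
  refine csSup_le' ?_
  rintro m ⟨F', i1, i2, hF', rfl⟩
  exact upper p hp h1 h2 h3 hF'

private theorem D1_special (p : ℕ) (hp : p.Prime) :
    {g : ℕ | p ∣ g + 1 ∧ ¬ p ^ 2 ∣ g + 1 ∧ p ^ 2 < g + 1}.Infinite := by
  have hp2 : 2 ≤ p := hp.two_le
  refine Set.infinite_of_injective_forall_mem (f := fun j : ℕ => p * (1 + p * (j + 1)) - 1) ?_ ?_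
  · intro a b hab
    have e1 : 1 ≤ p * (1 + p * (a + 1)) := Nat.mul_pos hp.pos (by positivity)
    have e2 : 1 ≤ p * (1 + p * (b + 1)) := Nat.mul_pos hp.pos (by positivity)
    have h : p * (1 + p * (a + 1)) = p * (1 + p * (b + 1)) := by
      simp only at hab
      omega
    have h1 := Nat.eq_of_mul_eq_mul_left hp.pos h
    have h2 : p * (a + 1) = p * (b + 1) := by omega
    have h3 := Nat.eq_of_mul_eq_mul_left hp.pos h2
    omega
  · intro j
    have e1 : 1 ≤ p * (1 + p * (j + 1)) := Nat.mul_pos hp.pos (by positivity)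
    have e2 : p * (1 + p * (j + 1)) - 1 + 1 = p * (1 + p * (j + 1)) := by omega
    show p ∣ p * (1 + p * (j + 1)) - 1 + 1 ∧ ¬ p ^ 2 ∣ p * (1 + p * (j + 1)) - 1 + 1 ∧
      p ^ 2 < p * (1 + p * (j + 1)) - 1 + 1
    rw [e2]
    refine ⟨Dvd.intro _ rfl, ?_, ?_⟩
    · intro hd
      rw [pow_two] at hd
      have h1 : p ∣ 1 + p * (j + 1) := Nat.dvd_of_mul_dvd_mul_left hp.pos hd
      have h2 : p ∣ 1 := (Nat.dvd_add_left (Dvd.intro _ rfl)).mp h1
      exact hp.one_lt.ne' (Nat.dvd_one.mp h2)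
    · nlinarith [Nat.zero_le (p * p * j)]

private theorem D1_sign (P : ℚ[X]) (hP : P ≠ 0) (S T : Set ℕ) (hS : S.Infinite) (hT : T.Infinite)
    (h1 : ∀ g ∈ S, P.eval (g : ℚ) ≤ 0) (h2 : ∀ g ∈ T, 0 ≤ P.eval (g : ℚ)) : False := by
  replace hS : ∃ᶠ g in Filter.atTop, g ∈ S := Nat.frequently_atTop_iff_infinite.mpr hS
  replace hT : ∃ᶠ g in Filter.atTop, g ∈ T := Nat.frequently_atTop_iff_infinite.mpr hT
  have hlc : P.leadingCoeff ≠ 0 := leadingCoeff_ne_zero.mpr hP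
  by_cases hd : 0 < P.degree
  · rcases lt_or_gt_of_ne hlc with h | h
    · have ht := (P.tendsto_atBot_of_leadingCoeff_nonpos hd h.le).comp
        (tendsto_natCast_atTop_atTop (R := ℚ))
      obtain ⟨g, hg, hg'⟩ := (hT.and_eventually (ht.eventually_lt_atBot 0)).exists
      exact absurd (h2 g hg) (not_le.mpr hg')
    · have ht := (P.tendsto_atTop_of_leadingCoeff_nonneg hd h.le).comp
        (tendsto_natCast_atTop_atTop (R := ℚ))
      obtain ⟨g, hg, hg'⟩ := (hS.and_eventually (ht.eventually_gt_atTop 0)).exists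
      exact absurd (h1 g hg) (not_le.mpr hg')
  · have hc : P = C (P.coeff 0) := eq_C_of_degree_le_zero (not_lt.mp hd)
    obtain ⟨g, hg⟩ := hS.exists
    obtain ⟨g', hg'⟩ := hT.exists
    have e1 := h1 g hg
    have e2 := h2 g' hg'
    rw [hc, eval_C] at e1 e2
    apply hP
    rw [hc, le_antisymm e1 e2, C_0]

theorem main_poly.{u} (p : ℕ) [Fact p.Prime] (hp : p ≠ 2) (k : Type u) [Field k] [IsAlgClosed k]
    [CharP k p] (M : ℚ[X]) :
    ((∀ g : ℕ, 2 ≤ g → M.eval (g : ℚ) ≤ muHyp k g) ∧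
      {g : ℕ | 2 ≤ g ∧ (muHyp k g : ℚ) = M.eval (g : ℚ)}.Infinite) ↔ M = C 8 * X := by
  have hp2 : 2 ≤ p := (Fact.out : p.Prime).two_le
  have hsp := D1_special p Fact.out
  constructor
  · rintro ⟨hM1, hM2⟩
    by_contra hne
    refine D1_sign (M - C 8 * X) (sub_ne_zero.mpr hne) _ _ hsp hM2 ?_ ?_
    · rintro g ⟨h1, h2, h3⟩
      have hg : 2 ≤ g := by nlinarith
      have e1 := hM1 g hg
      rw [exact p hp k h1 h2 h3] at e1
      rw [eval_sub, eval_mul, eval_C, eval_X]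
      push_cast at e1
      linarith
    · rintro g ⟨hg, hg2⟩
      have e1 : ((8 * g : ℕ) : ℚ) ≤ muHyp k g := by exact_mod_cast lower p hp k hg
      rw [hg2] at e1
      rw [eval_sub, eval_mul, eval_C, eval_X]
      push_cast at e1
      linarith
  · rintro rfl
    refine ⟨?_, ?_⟩
    · intro g hg
      have e1 : ((8 * g : ℕ) : ℚ) ≤ muHyp k g := by exact_mod_cast lower p hp k hg
      rw [eval_mul, eval_C, eval_X]
      push_cast at e1
      linarith
    · refine hsp.mono ?_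
      rintro g ⟨h1, h2, h3⟩
      have hg : 2 ≤ g := by nlinarith
      refine ⟨hg, ?_⟩
      rw [exact p hp k h1 h2 h3, eval_mul, eval_C, eval_X]
      push_cast
      ring

end Pool.Agent.Helper28.HA
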