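import Pool.Agent.Helper69.HA.Defs3
import Pool.Agent.Helper46.HA.CFacts
import Pool.Agent.Helper8.HA.Hit
import Pool.Agent.Helper15.HA.Phi
import Pool.Agent.Helper9.HA.NmsM
import Pool.Agent.Helper55.HA.Truth

/-!
# Project HA, HA-14: the sentence holds in the model
-/

set_option autoImplicit false
set_option linter.unusedSectionVars false

namespace Pool.Agent.Helper69.HA

open Set Pool.Agent.Helper33.HM Pool.Agent.Helper33.HMG Pool.Agent.Helper32.HB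
open Pool.Agent.Helper52.MA (El IsOmega1 setsM pairN numN on wN setN st PCCC Tr Meets mam_e)

universe u

section Transfer

variable {Ω : Type} [LinearOrder Ω] [WellFoundedLT Ω] {e : Ω → ℕ → Ω → Prop}
  {code : Ordinal.{0} → Ω → Set (Cond Ordinal.{0} Ω)} {R : Type}
  {W : R → (ℕ → Nm (PC e code)) → PC e code → Nm (PC e code) → Prop}

variable (g : Gen W)

section Names

variable (hr : MeetsA g)
include hr

theorem sentM_eN : eN (PC e code) e ∈ g.N := by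
  obtain ⟨k, ⟨x, hx, h⟩ | h⟩ := hr .sete [] (by simp)
  · have h' : x = eN (PC e code) e := h
    rw [← h']
    exact hx
  · exact absurd rfl (h _ le_rfl (eN (PC e code) e))

theorem sentM_EN : EN e code ∈ g.N := by
  obtain ⟨k, ⟨x, hx, h⟩ | h⟩ := hr .setE [] (by simp)
  · have h' : x = EN e code := h
    rw [← h']
    exact hx
  · exact absurd rfl (h _ le_rfl (EN e code))

theorem sentM_phN {σ : Nm (PC e code)} (hσ : σ ∈ g.N) : phN (Ω := Ω) (ix (Ω := Ω) σ) ∈ g.N := by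
  obtain ⟨k, ⟨x, hx, h⟩ | h⟩ := hr .phi [σ] (by simpa using hσ)
  · have h' : x = phN (ix σ) := h
    rw [← h']
    exact hx
  · exact absurd rfl (h _ le_rfl (phN (ix σ)))

theorem sentM_ph {σ : Nm (PC e code)} (hσ : σ ∈ g.N) {ξ : Ω} (hξ : on ξ ∈ g.N) :
    ∃ k n, ((g.pc k).f (ix σ)).φ ξ = some n := by
  obtain ⟨k, ⟨x, hx, ξ', h1, n, -, h2⟩ | h⟩ := hr .ph [σ, on ξ] (by simp [hσ, hξ])
  · have h1' : (on ξ : Nm (PC e code)) = on ξ' := h1
    have h3 := Pool.Agent.Helper52.MA.on_injective h1'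
    subst h3
    exact ⟨k, n, h2⟩
  · exfalso
    obtain ⟨q, hq, n, hn⟩ := exists_phi (g.pc k) (ix σ) ξ
    exact h q hq (numN n) ⟨ξ, rfl, n, rfl, hn⟩

theorem sentM_fin {σ : Nm (PC e code)} (hσ : σ ∈ g.N) {δ : Ω} (hδ : on δ ∈ g.N) (n : ℕ) :
    ∃ k, ((g.pc k).f (ix σ)).F δ n := by
  obtain ⟨k, ⟨x, hx, δ', h1, h2⟩ | h⟩ := hr (.fin n) [σ, on δ] (by simp [hσ, hδ])
  · have h1' : (on δ : Nm (PC e code)) = on δ' := h1
    have h3 := Pool.Agent.Helper52.MA.on_injective h1'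
    subst h3
    exact ⟨k, h2⟩
  · exfalso
    obtain ⟨q, hq, hF, -⟩ := exists_F (g.pc k) (ix σ) δ n
    exact h q hq (numN n) ⟨δ, rfl, hF⟩

theorem sentM_ce (he : EnumL (fun x y => x < y) e) {σ : Nm (PC e code)} (hσ : σ ∈ g.N) {δ ξ : Ω}
    (hδ : on δ ∈ g.N) (hξ : on ξ ∈ g.N) : ∃ k b, CE (g.pc k) (ix σ) δ (.inl ξ) b := by
  obtain ⟨k, ⟨x, hx, δ', ξ', h1, h2, b, h3⟩ | h⟩ := hr .ceB [σ, on δ, on ξ] (by simp [hσ, hδ, hξ])
  · have h1' : (on δ : Nm (PC e code)) = on δ' := h1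
    have h2' : (on ξ : Nm (PC e code)) = on ξ' := h2
    have h4 := Pool.Agent.Helper52.MA.on_injective h1'
    have h5 := Pool.Agent.Helper52.MA.on_injective h2'
    subst h4
    subst h5
    exact ⟨k, b, h3⟩
  · exfalso
    obtain ⟨q, hq, b, hb⟩ := exists_ce he (g.pc k) (ix σ) δ (.inl ξ)
    exact h q hq emptyN ⟨δ, ξ, rfl, rfl, b, hb⟩

end Names

variable (hg : Meets Ω g) (hr : MeetsA g)
  (hix : ∀ U : Ω → RO (PC e code), ∃ i, ∀ γ, bt i γ = U γ)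
include hg hr hix

theorem sentM_finite (he : EnumL (fun x y => x < y) e) {σ : Nm (PC e code)} (hσ : σ ∈ g.N)
    (δ : El (g.val (wN Ω))) (n : ℕ) :
    {γ : El (g.val (wN Ω)) | ZFSet.pair γ.1 (Gen.nat n) ∈ g.val (phN (Ω := Ω) (ix (Ω := Ω) σ)) ∧
      MemL (fun x y : El (g.val (wN Ω)) => x.1 ∈ y.1) (eM g) (EM g) (brM g σ) δ
        (.inl γ)}.Finite := by
  obtain ⟨δ', hδ, rfl⟩ := Pool.Agent.Helper52.MA.mam_surj g δ
  obtain ⟨k0, hk0⟩ := sentM_fin g hr hσ hδ n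
  have hsurj : ∀ γ : El (g.val (wN Ω)), ∃ y : Ω, ∃ hy : on y ∈ g.N, mam_e g hy = γ :=
    Pool.Agent.Helper52.MA.mam_surj g
  choose G hG1 hG2 using hsurj
  refine Set.Finite.of_injOn (f := G) (t := {ξ | ((g.pc k0).f (ix σ)).φ ξ ≠ none}) ?_ ?_
    ((g.pc k0).f (ix σ)).finφ
  · rintro γ ⟨h1, h2⟩
    have h3 := hG2 γ
    have h1' : ZFSet.pair (g.val (on (G γ))) (Gen.nat n) ∈
        g.val (phN (Ω := Ω) (ix (Ω := Ω) σ)) := by
      have : g.val (on (G γ)) = γ.1 := congrArg Subtype.val h3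
      rw [this]
      exact h1
    obtain ⟨k1, hk1⟩ := (phN_iff g hg hr hix hσ (hG1 γ)).1 h1'
    obtain ⟨k2, b, hb⟩ := sentM_ce g hr he hσ hδ (hG1 γ)
    have h4 := (truthA g hg hr hix hσ hδ (k := k2) (b := b) he).2 (G γ) (hG1 γ) hb
    rw [h3] at h4
    have hbt : b = true := h4.1 h2
    subst hbt
    have hk : g.pc (max k0 (max k1 k2)) ≤ g.pc k0 := g.pc_le (le_max_left _ _)
    have hk' : g.pc (max k0 (max k1 k2)) ≤ g.pc k1 :=
      g.pc_le ((le_max_left _ _).trans (le_max_right _ _))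
    have hk'' : g.pc (max k0 (max k1 k2)) ≤ g.pc k2 :=
      g.pc_le ((le_max_right _ _).trans (le_max_right _ _))
    have h5 := phi_fin hk hk0 ((PC.le_data hk' (ix σ)).φ _ _ hk1) (CE_mono hk'' hb)
    change ((g.pc k0).f (ix σ)).φ (G γ) ≠ none
    rw [h5]
    simp
  · intro γ _ γ' _ h
    rw [← hG2 γ, ← hG2 γ']
    have : ∀ {y y' : Ω} (hy : on y ∈ g.N) (hy' : on y' ∈ g.N), y = y' →
        mam_e g hy = mam_e g hy' := by
      rintro y y' hy hy' rfl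
      rfl
    exact this _ _ h

theorem sentM_infinite (he : EnumL (fun x y => x < y) e)
    (hb : ∀ s : Set Ω, s.Countable → ∃ b, ∀ x ∈ s, x < b) (hI : ∀ b : Ω, (Iio b).Countable)
    {σ τ : Nm (PC e code)} (hσ : σ ∈ g.N) (hτ : τ ∈ g.N) {A : Set ℕ}
    (hA : ∀ n, n ∈ A ↔ Gen.nat n ∈ g.val τ) (hinf : A.Infinite) :
    ∃ δ : El (g.val (wN Ω)), {l | l ∈ A ∧ MemL (fun x y : El (g.val (wN Ω)) => x.1 ∈ y.1) (eM g)
      (EM g) (brM g σ) δ (.inr l)}.Infinite := by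
  have hA' : ∀ n, n ∈ A ↔ Tr g (memv (numN n) τ) := by
    intro n
    rw [hA n]
    have h1 : g.val (numN n) = Gen.nat n := g.val_num n
    rw [← h1]
    exact (g.mem_iff (Pool.Agent.Helper52.MA.numN_mem g n) hτ).symm
  -- the set is forced to be infinite
  obtain ⟨k, ⟨x, hx, n, hn⟩ | h⟩ := hr .bd [τ] (by simpa using hτ)
  · exfalso
    apply hinf
    refine (Set.finite_Iio n).subset fun l hl => ?_
    by_contra hnl
    have h1 : Tr g (memv (numN l) τ)ᶜ := ⟨k, hn l (not_lt.1 hnl)⟩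
    exact Pool.Agent.Helper52.MA.tr_compl g h1 ((hA' l).1 hl)
  have h1 : ∀ n q, q ≤ g.pc k → ∃ r, r ≤ q ∧ ∃ l, n ≤ l ∧ r ∈ memv (numN l) τ := by
    intro n q hq
    by_contra hc
    push Not at hc
    exact h q hq emptyN ⟨n, fun l hl r hr h2 => hc r hr l hl h2⟩
  -- the level
  obtain ⟨δ, hδ, k', hk'⟩ : ∃ δ : Ω, on δ ∈ g.N ∧ ∃ k', ∀ n q, q ≤ g.pc k' → ∃ r, r ≤ q ∧
      ∃ l, n ≤ l ∧ r ∈ memv (numN l) τ ∧ CE r (ix σ) δ (.inr l) true := by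
    obtain ⟨k', ⟨x, hx, δ, h2, h3⟩ | h2⟩ := hr .dlt [τ, σ] (by simp [hτ, hσ])
    · exact ⟨δ, h2 ▸ hx, k', h3⟩
    · exfalso
      obtain ⟨q, hq, δ, h3⟩ := exists_hit he hb hI (fun l => memv (numN l) τ) (ix σ)
        (g.pc (max k k')) (fun n q hq => h1 n q (hq.trans (g.pc_le (le_max_left _ _))))
      exact h2 q (hq.trans (g.pc_le (le_max_right _ _))) (on δ) ⟨δ, rfl, h3⟩
  refine ⟨mam_e g hδ, ?_⟩
  apply Set.infinite_of_forall_exists_gt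
  intro n
  obtain ⟨k₂, ⟨x, hx, δ', h2, l, hl, h3, h4⟩ | h2⟩ := hr (.hit (n + 1)) [τ, σ, on δ]
    (by simp [hτ, hσ, hδ])
  · have h2' : (on δ : Nm (PC e code)) = on δ' := h2
    have h5 := Pool.Agent.Helper52.MA.on_injective h2'
    subst h5
    refine ⟨l, ⟨(hA' l).2 ⟨k₂, h3⟩, ?_⟩, by omega⟩
    exact ((truthA g hg hr hix hσ hδ (k := k₂) (b := true) he).1 l h4).2 rfl
  · exfalso
    obtain ⟨r, hr', l, hl, h3, h4⟩ := hk' (n + 1) (g.pc (max k' k₂)) (g.pc_le (le_max_left _ _))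
    exact h2 r (hr'.trans (g.pc_le (le_max_right _ _))) emptyN ⟨δ, rfl, l, hl, h3, h4⟩

theorem ha_sentence (he : EnumL (fun x y => x < y) e)
    (hb : ∀ s : Set Ω, s.Countable → ∃ b, ∀ x ∈ s, x < b) (hI : ∀ b : Ω, (Iio b).Countable) :
    HSent (El (g.val (wN Ω))) (fun x y => x.1 ∈ y.1) (setsM g.M (g.val (wN Ω)))
      (relsE g.M (g.val (wN Ω))) (fnsE g.M (g.val (wN Ω))) (tabs g.M (g.val (wN Ω)))
      (realsN g.M) := by
  refine ⟨eM g, ⟨g.val (eN (PC e code) e), ⟨_, sentM_eN g hr, rfl⟩, fun δ m γ => Iff.rfl⟩,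
    enumL_eM g hg hr hix he, EM g, ⟨g.val (EN e code), ⟨_, sentM_EN g hr, rfl⟩,
    fun δ t m x => Iff.rfl⟩, ?_, ?_⟩
  · rintro b ⟨_, ⟨σ, hσ, rfl⟩, hbσ⟩ δ m
    have hbr : b = brM g σ := Set.ext fun x => hbσ x
    subst hbr
    obtain ⟨x, hx⟩ := EM_ex g hg hr hix hσ δ m
    exact ⟨x, hx, fun y hy => EM_fun g hg hr hix hy hx⟩
  · rintro b ⟨_, ⟨σ, hσ, rfl⟩, hbσ⟩
    have hbr : b = brM g σ := Set.ext fun x => hbσ x
    subst hbr
    refine ⟨⟨fun γ n => ZFSet.pair γ.1 (Gen.nat n) ∈ g.val (phN (Ω := Ω) (ix (Ω := Ω) σ)),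
      ⟨_, ⟨_, sentM_phN g hr hσ, rfl⟩, fun γ n => Iff.rfl⟩, ?_,
      fun δ n => sentM_finite g hg hr hix he hσ δ n⟩, ?_⟩
    · intro γ
      obtain ⟨ξ, hξ, rfl⟩ := Pool.Agent.Helper52.MA.mam_surj g γ
      obtain ⟨k, n, hn⟩ := sentM_ph g hr hσ hξ
      refine ⟨n, (phN_iff g hg hr hix hσ hξ).2 ⟨k, hn⟩, fun n' hn' => ?_⟩
      obtain ⟨k', hk'⟩ := (phN_iff g hg hr hix hσ hξ).1 hn'
      have h1 := (PC.le_data (g.pc_le (le_max_left k k')) (ix σ)).φ _ _ hn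
      have h2 := (PC.le_data (g.pc_le (le_max_right k k')) (ix σ)).φ _ _ hk'
      exact (Option.some.inj (h1.symm.trans h2)).symm
    · rintro A ⟨_, ⟨τ, hτ, rfl⟩, hA⟩ hinf
      exact sentM_infinite g hg hr hix he hb hI hσ hτ hA hinf

end Transfer

end Pool.Agent.Helper69.HA
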